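import Mathlib
import Pool.Agent.Helper442.FE.Defs
import Pool.Agent.Helper236.Cycle

/-!
# The largest complete class of matroids avoiding `M(K₄)`: definitions

The notions of isomorphism of matroids, of truncation, of linking in a directed graph, of the
matroid induced through a directed graph and of a complete class of matroids are those of
`Pool.Agent.Helper442.FE.Defs` (`Iso`, `IsTruncation`, `Linked`, `IsInduced`, `IsComplete`).
-/

set_option autoImplicit false

namespace Pool.Agent.K9h62.CC

open Set Pool.Agent.Helper442.FE
open scoped Matroid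

/-- There is a matroid on the set of all edges of the complete graph on four vertices whose
independent sets are the edge sets of forests. -/
theorem exists_cycleMatroidK4 : ∃ M : Matroid (Sym2 (Fin 4)),
    (⊤ : SimpleGraph (Fin 4)).edgeSet = M.E ∧
      ∀ I, M.Indep I ↔ I ⊆ (⊤ : SimpleGraph (Fin 4)).edgeSet ∧
        (SimpleGraph.fromEdgeSet I).IsAcyclic := by
  obtain ⟨h1, h2⟩ := Helper236.cyc_isCompleteGraphMatroid ℚ 4
  refine ⟨_, h1.symm, fun I => ⟨fun h => ?_, fun h => ?_⟩⟩
  · have hI := h.subset_ground
    exact ⟨h1 ▸ hI, (h2 I hI).1 h⟩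
  · exact (h2 I (h1 ▸ h.1)).2 h.2

/-- `M(K₄)`: the cycle matroid of the complete graph on four vertices. The elements are the edges
of the graph, and a set of edges is independent if and only if it is the edge set of a forest. -/
noncomputable def MK4 : Matroid (Sym2 (Fin 4)) :=
  Matroid.ofExistsMatroid (⊤ : SimpleGraph (Fin 4)).edgeSet
    (fun I => I ⊆ (⊤ : SimpleGraph (Fin 4)).edgeSet ∧ (SimpleGraph.fromEdgeSet I).IsAcyclic)
    exists_cycleMatroidK4

/-- `M` has a minor isomorphic to `N`. -/
def HasMinorIso {α β : Type} (M : Matroid α) (N : Matroid β) : Prop :=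
  ∃ M' : Matroid α, M' ≤m M ∧ Iso M' N

/-- The class `𝒦` of the finite matroids with no minor isomorphic to `M(K₄)`. -/
def NoMK4 : MClass := fun _ M => M.E.Finite ∧ ¬ HasMinorIso M MK4

/-- `C` is the largest complete class that does not contain the matroid `N` (that is,
`C = C̄(N)`): `C` is complete, `N` is not in `C`, and every complete class that does not contain
`N` is contained in `C`. -/
def IsLargestAvoiding {β : Type} (N : Matroid β) (C : MClass) : Prop :=
  IsComplete C ∧ ¬ C β N ∧
    ∀ D : MClass, IsComplete D → ¬ D β N → ∀ (α : Type) (M : Matroid α), D α M → C α M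

end Pool.Agent.K9h62.CC
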