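import Mathlib

/-!
# Adding an element freely to a flat does not create an `M(K₄)`-minor: rank function version
-/

set_option autoImplicit false

namespace Pool.Agent.K9h62.CC

open Set

variable {α : Type}

/-- Integer valued rank functions. -/
structure RF (f : Set α → ℤ) : Prop where
  zero : f ∅ = 0
  mono : ∀ {A B : Set α}, A ⊆ B → f A ≤ f B
  sub : ∀ A B : Set α, f (A ∪ B) + f (A ∩ B) ≤ f A + f B
  unit : ∀ (x : α) (A : Set α), f (insert x A) ≤ f A + 1

theorem RF.sm {f : Set α → ℤ} (h : RF f) {U I A B : Set α} (hU : U ⊆ A ∪ B) (hI : I ⊆ A ∩ B) :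
    f U + f I ≤ f A + f B := by
  have h1 := h.sub A B
  have h2 := h.mono hU
  have h3 := h.mono hI
  omega

/-- Contraction of a set. -/
def con (f : Set α → ℤ) (C : Set α) : Set α → ℤ := fun X => f (C ∪ X) - f C

theorem RF.con {f : Set α → ℤ} (h : RF f) (C : Set α) : RF (con f C) where
  zero := by simp [CC.con]
  mono := by
    intro A B hAB
    have := h.mono (union_subset_union_right C hAB)
    simp only [CC.con]
    omega
  sub := by
    intro A B
    have := h.sm (U := C ∪ (A ∪ B)) (I := C ∪ (A ∩ B)) (A := C ∪ A) (B := C ∪ B)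
      (by intro x; simp only [mem_union]; tauto) (by intro x; simp only [mem_union, mem_inter_iff]; tauto)
    simp only [CC.con]
    omega
  unit := by
    intro x A
    have := h.unit x (C ∪ A)
    simp only [CC.con]
    rw [← Set.union_insert] at this
    omega

theorem con_con (f : Set α → ℤ) (C D : Set α) : con (con f C) D = con f (C ∪ D) := by
  funext X
  simp only [con, union_assoc]
  omega

/-- The essential conditions for an `M(K₄)` on six elements, with three-point lines `s a b`,
`s c d`, `t a c`, `t b d`. -/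
structure Mn (f : Set α → ℤ) (a b c d s t : α) : Prop where
  abc : 3 ≤ f {a, b, c}
  dst : 3 ≤ f {d, s, t}
  sab : f {s, a, b} ≤ 2
  scd : f {s, c, d} ≤ 2
  tac : f {t, a, c} ≤ 2
  tbd : f {t, b, d} ≤ 2

section

variable {f : Set α → ℤ} {a b c d s t : α}

theorem Mn.rot (h : Mn f a b c d s t) : Mn f d s t a c b where
  abc := h.dst
  dst := by
    have := h.abc
    rwa [show ({a, b, c} : Set α) = {a, c, b} by ext; simp; tauto] at this
  sab := by
    have := h.scd
    rwa [show ({s, c, d} : Set α) = {c, d, s} by ext; simp; tauto] at this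
  scd := by
    have := h.tac
    rwa [show ({t, a, c} : Set α) = {c, t, a} by ext; simp; tauto] at this
  tac := by
    have := h.tbd
    rwa [show ({t, b, d} : Set α) = {b, d, t} by ext; simp; tauto] at this
  tbd := by
    have := h.sab
    rwa [show ({s, a, b} : Set α) = {b, s, a} by ext; simp; tauto] at this

theorem RF.pair_of_triple (hf : RF f) {x y z : α} (h : 3 ≤ f {x, y, z}) :
    2 ≤ f {x, y} ∧ 2 ≤ f {x, z} ∧ 2 ≤ f {y, z} := by
  have h1 := hf.unit z {x, y}
  have h2 := hf.unit y {x, z}
  have h3 := hf.unit x {y, z}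
  rw [show (insert z {x, y} : Set α) = {x, y, z} by ext; simp; tauto] at h1
  rw [show (insert y {x, z} : Set α) = {x, y, z} by ext; simp; tauto] at h2
  exact ⟨by omega, by omega, by omega⟩

theorem RF.single_of_pair (hf : RF f) {x y : α} (h : 2 ≤ f {x, y}) :
    1 ≤ f {x} ∧ 1 ≤ f {y} := by
  have h1 := hf.unit y {x}
  have h2 := hf.unit x {y}
  rw [show (insert y {x} : Set α) = {x, y} by ext; simp; tauto] at h1
  exact ⟨by omega, by omega⟩

theorem RF.single_le (hf : RF f) (x : α) : f {x} ≤ 1 := by
  have h1 := hf.unit x ∅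
  have h2 := hf.zero
  rw [insert_empty_eq] at h1
  omega

theorem RF.pair_le (hf : RF f) (x y : α) : f {x, y} ≤ 2 := by
  have h1 := hf.unit x {y}
  have h2 := hf.single_le y
  omega

theorem RF.triple_le (hf : RF f) (x y z : α) : f {x, y, z} ≤ 3 := by
  have h1 := hf.unit x {y, z}
  have h2 := hf.pair_le y z
  omega

theorem Mn.as (hf : RF f) (h : Mn f a b c d s t) : 2 ≤ f {a, s} := by
  by_contra hcon
  have h1 := hf.sm (U := {a, c, d, s}) (I := {s}) (A := {s, c, d}) (B := {a, s})
    (by intro x; simp; tauto) (by intro x; simp; tauto)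
  have h2 := hf.sm (U := {a, c, d, s, t}) (I := {a, c}) (A := {a, c, d, s}) (B := {t, a, c})
    (by intro x; simp; tauto) (by intro x; simp; tauto)
  have h3 := hf.mono (A := {d, s, t}) (B := {a, c, d, s, t}) (by intro x; simp; tauto)
  obtain ⟨-, h4, -⟩ := hf.pair_of_triple h.abc
  obtain ⟨h5, -, -⟩ := hf.pair_of_triple h.dst
  obtain ⟨-, h6⟩ := hf.single_of_pair h5
  have := h.scd
  have := h.tac
  have := h.dst
  omega

theorem Mn.bs (hf : RF f) (h : Mn f a b c d s t) : 2 ≤ f {b, s} := by
  by_contra hcon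
  have h1 := hf.sm (U := {b, s, t, d}) (I := {b}) (A := {t, b, d}) (B := {b, s})
    (by intro x; simp; tauto) (by intro x; simp; tauto)
  have h3 := hf.mono (A := {d, s, t}) (B := {b, s, t, d}) (by intro x; simp; tauto)
  obtain ⟨h4, -, -⟩ := hf.pair_of_triple h.abc
  obtain ⟨-, h6⟩ := hf.single_of_pair h4
  have := h.tbd
  have := h.dst
  omega

theorem Mn.dc (hf : RF f) (h : Mn f a b c d s t) : 2 ≤ f {d, c} := h.rot.as hf
theorem Mn.at' (hf : RF f) (h : Mn f a b c d s t) : 2 ≤ f {a, t} := h.rot.rot.as hf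
theorem Mn.db (hf : RF f) (h : Mn f a b c d s t) : 2 ≤ f {d, b} := h.rot.rot.rot.as hf
theorem Mn.sc (hf : RF f) (h : Mn f a b c d s t) : 2 ≤ f {s, c} := h.rot.bs hf
theorem Mn.ct (hf : RF f) (h : Mn f a b c d s t) : 2 ≤ f {c, t} := h.rot.rot.bs hf
theorem Mn.tb (hf : RF f) (h : Mn f a b c d s t) : 2 ≤ f {t, b} := h.rot.rot.rot.bs hf

theorem Mn.ad (hf : RF f) (h : Mn f a b c d s t) : 2 ≤ f {a, d} := by
  by_contra hcon
  have h1 := hf.sm (U := {t, b, d, a}) (I := {d}) (A := {t, b, d}) (B := {a, d})
    (by intro x; simp; tauto) (by intro x; simp; tauto)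
  have h2 := hf.sm (U := {a, b, c, d, t}) (I := {a, t}) (A := {t, b, d, a}) (B := {t, a, c})
    (by intro x; simp; tauto) (by intro x; simp; tauto)
  have h3 := hf.mono (A := {a, b, c}) (B := {a, b, c, d, t}) (by intro x; simp; tauto)
  have h4 := h.at' hf
  obtain ⟨h5, -, -⟩ := hf.pair_of_triple h.dst
  obtain ⟨h6, -⟩ := hf.single_of_pair h5
  have := h.tbd
  have := h.tac
  have := h.abc
  omega

theorem Mn.abd (hf : RF f) (h : Mn f a b c d s t) : 3 ≤ f {a, b, d} := by
  by_contra hcon
  have h1 := hf.sm (U := {a, b, d, s}) (I := {a, b}) (A := {a, b, d}) (B := {s, a, b})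
    (by intro x; simp; tauto) (by intro x; simp; tauto)
  have h2 := hf.sm (U := {a, b, d, s, t}) (I := {d, b}) (A := {a, b, d, s}) (B := {t, b, d})
    (by intro x; simp; tauto) (by intro x; simp; tauto)
  have h3 := hf.mono (A := {d, s, t}) (B := {a, b, d, s, t}) (by intro x; simp; tauto)
  have h4 := h.db hf
  obtain ⟨h5, -, -⟩ := hf.pair_of_triple h.abc
  have := h.tbd
  have := h.sab
  have := h.dst
  omega

theorem Mn.abt (hf : RF f) (h : Mn f a b c d s t) : 3 ≤ f {a, b, t} := by
  by_contra hcon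
  have h1 := hf.sm (U := {a, b, t, c}) (I := {a, t}) (A := {a, b, t}) (B := {t, a, c})
    (by intro x; simp; tauto) (by intro x; simp; tauto)
  have h3 := hf.mono (A := {a, b, c}) (B := {a, b, t, c}) (by intro x; simp; tauto)
  have h4 := h.at' hf
  have := h.tac
  have := h.abc
  omega

theorem Mn.ast (hf : RF f) (h : Mn f a b c d s t) : 3 ≤ f {a, s, t} := by
  by_contra hcon
  have h1 := hf.sm (U := {a, s, t, c}) (I := {a, t}) (A := {a, s, t}) (B := {t, a, c})
    (by intro x; simp; tauto) (by intro x; simp; tauto)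
  have h2 := hf.sm (U := {a, s, t, c, d}) (I := {s, c}) (A := {a, s, t, c}) (B := {s, c, d})
    (by intro x; simp; tauto) (by intro x; simp; tauto)
  have h3 := hf.mono (A := {d, s, t}) (B := {a, s, t, c, d}) (by intro x; simp; tauto)
  have h4 := h.at' hf
  have h5 := h.sc hf
  have := h.tac
  have := h.scd
  have := h.dst
  omega

theorem Mn.bcs (hf : RF f) (h : Mn f a b c d s t) : 3 ≤ f {b, c, s} := by
  by_contra hcon
  have h1 := hf.sm (U := {b, c, s, a}) (I := {b, s}) (A := {b, c, s}) (B := {s, a, b})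
    (by intro x; simp; tauto) (by intro x; simp; tauto)
  have h3 := hf.mono (A := {a, b, c}) (B := {b, c, s, a}) (by intro x; simp; tauto)
  have h4 := h.bs hf
  have := h.sab
  have := h.abc
  omega

theorem Mn.all_le (hf : RF f) (h : Mn f a b c d s t) : f {a, b, c, d, s, t} ≤ 3 := by
  have h1 := hf.sm (U := {a, b, c, s}) (I := {a, b}) (A := {a, b, c}) (B := {s, a, b})
    (by intro x; simp; tauto) (by intro x; simp; tauto)
  have h2 := hf.sm (U := {a, b, c, s, t}) (I := {a, c}) (A := {a, b, c, s}) (B := {t, a, c})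
    (by intro x; simp; tauto) (by intro x; simp; tauto)
  have h3 := hf.sm (U := {a, b, c, d, s, t}) (I := {s, c}) (A := {a, b, c, s, t}) (B := {s, c, d})
    (by intro x; simp; tauto) (by intro x; simp; tauto)
  obtain ⟨h4, h5, -⟩ := hf.pair_of_triple h.abc
  have h6 := h.sc hf
  have := hf.triple_le a b c
  have := h.sab
  have := h.tac
  have := h.scd
  omega

/-- Another symmetry of `M(K₄)`. -/
theorem Mn.swp (hf : RF f) (h : Mn f a b c d s t) : Mn f s b c t a d where
  abc := by
    have := h.bcs hf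
    rwa [show ({b, c, s} : Set α) = {s, b, c} by ext; simp; tauto] at this
  dst := by
    have := h.rot.rot.rot.abd hf
    rwa [show ({d, t, a} : Set α) = {t, a, d} by ext; simp; tauto] at this
  sab := by
    have := h.sab
    rwa [show ({s, a, b} : Set α) = {a, s, b} by ext; simp; tauto] at this
  scd := by
    have := h.tac
    rwa [show ({t, a, c} : Set α) = {a, c, t} by ext; simp; tauto] at this
  tac := by
    have := h.scd
    rwa [show ({s, c, d} : Set α) = {d, s, c} by ext; simp; tauto] at this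
  tbd := by
    have := h.tbd
    rwa [show ({t, b, d} : Set α) = {d, b, t} by ext; simp; tauto] at this

end

end Pool.Agent.K9h62.CC
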