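import Mathlib
import Pool.Agent.K9h62.CC.Rank

/-!
# Adding an element freely to a flat does not create an `M(K₄)`-minor: the main lemma
-/

set_option autoImplicit false

namespace Pool.Agent.K9h62.CC

open Set

variable {α : Type}

/-- There is a minor `M(K₄)` inside the set `E`. -/
def HK (f : Set α → ℤ) (E : Set α) : Prop :=
  ∃ C ⊆ E, ∃ a ∈ E, ∃ b ∈ E, ∃ c ∈ E, ∃ d ∈ E, ∃ s ∈ E, ∃ t ∈ E, Mn (con f C) a b c d s t

/-- The element `e` is free over `F` with respect to subsets of `E`. -/
structure Fr (f : Set α → ℤ) (E F : Set α) (e : α) : Prop where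
  sub : F ⊆ E
  stay : ∀ X ⊆ E, (∀ g ∈ F, f (insert g X) ≤ f X) → f (insert e X) ≤ f X
  grow : ∀ X ⊆ E, (∃ g ∈ F, f X + 1 ≤ f (insert g X)) → f X + 1 ≤ f (insert e X)

theorem Fr.con {f : Set α → ℤ} {E F C : Set α} {e : α} (h : Fr f E F e) (hC : C ⊆ E) :
    Fr (con f C) E F e where
  sub := h.sub
  stay := by
    intro X hX hg
    have := h.stay (C ∪ X) (union_subset hC hX) (by
      intro g hgF
      have := hg g hgF
      simp only [CC.con, union_insert] at this
      omega)
    simp only [CC.con, union_insert]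
    omega
  grow := by
    rintro X hX ⟨g, hgF, hg⟩
    have := h.grow (C ∪ X) (union_subset hC hX) ⟨g, hgF, by
      simp only [CC.con, union_insert] at hg
      omega⟩
    simp only [CC.con, union_insert]
    omega

section

variable {f : Set α → ℤ} {E F : Set α} {e : α} {a b c d s t : α}

/-- The new element on an `M(K₄)` can be replaced by an element of the flat. -/
theorem replace_s (hf : RF f) (hF : Fr f E F s) (ha : a ∈ E) (hb : b ∈ E) (hc : c ∈ E) (hd : d ∈ E)
    (h : Mn f a b c d s t) : ∃ g ∈ F, Mn f a b c d g t := by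
  have h0 : ∃ g ∈ F, 1 ≤ f {g} := by
    by_contra hcon
    push Not at hcon
    have h1 := hF.stay ∅ (empty_subset _) (by
      intro g hg
      have := hcon g hg
      have := hf.zero
      rw [insert_empty_eq]
      omega)
    obtain ⟨h5, -, -⟩ := hf.pair_of_triple h.dst
    obtain ⟨-, h6⟩ := hf.single_of_pair h5
    have := hf.zero
    rw [insert_empty_eq] at h1
    omega
  obtain ⟨g, hg, hg1⟩ := h0
  obtain ⟨p1, p2, -⟩ := hf.pair_of_triple h.abc
  have p3 := h.dc hf
  have q1 : f {g, a, b} ≤ 2 := by
    by_contra hcon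
    have h1 := hF.grow {a, b} (by intro x; simp; rintro (rfl | rfl) <;> assumption) ⟨g, hg, by
      have := hf.pair_le a b
      omega⟩
    have := h.sab
    have : f {a, b} = 2 := le_antisymm (hf.pair_le a b) p1
    have e1 : ({g, a, b} : Set α) = insert g {a, b} := rfl
    omega
  have q2 : f {g, c, d} ≤ 2 := by
    by_contra hcon
    have h1 := hF.grow {c, d} (by intro x; simp; rintro (rfl | rfl) <;> assumption) ⟨g, hg, by
      have := hf.pair_le c d
      omega⟩
    have := h.scd
    have e2 : ({d, c} : Set α) = {c, d} := Set.pair_comm _ _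
    rw [e2] at p3
    omega
  refine ⟨g, hg, h.abc, ?_, q1, q2, h.tac, h.tbd⟩
  have h1 := hf.sm (U := {a, b, g, s}) (I := {a, b}) (A := {s, a, b}) (B := {g, a, b})
    (by intro x; simp; tauto) (by intro x; simp; tauto)
  have h2 := hf.sm (U := {c, d, g, s}) (I := {d, c}) (A := {s, c, d}) (B := {g, c, d})
    (by intro x; simp; tauto) (by intro x; simp; tauto)
  have h3 := hf.sm (U := {a, b, c}) (I := {s, g}) (A := {a, b, g, s}) (B := {c, d, g, s})
    (by intro x; simp; tauto) (by intro x; simp; tauto)
  have h4 := hf.sm (U := {d, s, t}) (I := {g}) (A := {d, g, t}) (B := {s, g})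
    (by intro x; simp; tauto) (by intro x; simp; tauto)
  have := h.sab
  have := h.scd
  have := h.abc
  have := h.dst
  omega

set_option maxHeartbeats 4000000 in
/-- Contracting the new element. -/
theorem contract_e (hf : RF f) (hF : Fr f E F e) (ha : a ∈ E) (hb : b ∈ E) (hc : c ∈ E) (hd : d ∈ E)
    (hs : s ∈ E) (ht : t ∈ E) (h : Mn (con f {e}) a b c d s t) : HK f E := by
  set q := con f {e} with hq
  have hqf : RF q := hf.con _
  have qe : ∀ X, q X = f (insert e X) - f {e} := by
    intro X
    rw [hq]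
    simp only [con]
    rw [show ({e} ∪ X : Set α) = insert e X from rfl]
  have e1 := hf.single_le e
  have qle : ∀ X, q X ≤ f X := by
    intro X
    have := hf.sm (U := insert e X) (I := ∅) (A := {e}) (B := X) (by intro x; simp) (by intro x; simp)
    have := hf.zero
    rw [qe]
    omega
  -- membership helper
  have mem3 : ∀ x ∈ E, ∀ y ∈ E, ∀ z ∈ E, ({x, y, z} : Set α) ⊆ E := by
    intro x hx y hy z hz w hw
    simp only [mem_insert_iff, mem_singleton_iff] at hw
    rcases hw with rfl | rfl | rfl <;> assumption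
  by_cases hP0 : ∀ g ∈ F, f {g} ≤ 0
  · -- `e` is a loop
    have h0 := hF.stay ∅ (empty_subset _) (by
      intro g hg
      have := hP0 g hg
      have := hf.zero
      rw [insert_empty_eq]
      omega)
    rw [insert_empty_eq, hf.zero] at h0
    have e0 : f {e} = 0 := by
      have := hf.mono (empty_subset {e})
      have := hf.zero
      omega
    have qeq : ∀ X, q X = f X := by
      intro X
      have := hf.mono (subset_insert e X)
      have := qle X
      have := qe X
      omega
    have : q = con f ∅ := by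
      funext X
      rw [qeq]
      simp only [con, empty_union, hf.zero]
      omega
    rw [this] at h
    exact ⟨∅, empty_subset _, a, ha, b, hb, c, hc, d, hd, s, hs, t, ht, h⟩
  push Not at hP0
  obtain ⟨g0, hg0, hg01⟩ := hP0
  have e1' : f {e} = 1 := by
    have := hF.grow ∅ (empty_subset _) ⟨g0, hg0, by
      have := hf.zero
      rw [insert_empty_eq]
      omega⟩
    rw [insert_empty_eq] at this
    have := hf.zero
    omega
  -- the closure predicate
  have qP : ∀ X ⊆ E, (∀ g ∈ F, f (insert g X) ≤ f X) → q X = f X - 1 := by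
    intro X hX hP
    have h1 := hF.stay X hX hP
    have h2 := hf.mono (subset_insert e X)
    rw [qe]
    omega
  have qN : ∀ X ⊆ E, (∃ g ∈ F, f X + 1 ≤ f (insert g X)) → q X = f X := by
    intro X hX hP
    have h1 := hF.grow X hX hP
    have h2 := hf.unit e X
    rw [qe]
    omega
  have qcases : ∀ X ⊆ E, (q X = f X - 1 ∧ (∀ g ∈ F, f (insert g X) ≤ f X)) ∨
      (q X = f X ∧ (∃ g ∈ F, f X + 1 ≤ f (insert g X))) := by
    intro X hX
    by_cases hP : ∀ g ∈ F, f (insert g X) ≤ f X
    · exact Or.inl ⟨qP X hX hP, hP⟩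
    · right
      push Not at hP
      obtain ⟨g, hg, hlt⟩ := hP
      exact ⟨qN X hX ⟨g, hg, by omega⟩, g, hg, by omega⟩
  have pmono : ∀ X Y : Set α, X ⊆ Y → (∀ g ∈ F, f (insert g X) ≤ f X) →
      ∀ g ∈ F, f (insert g Y) ≤ f Y := by
    intro X Y hXY hP g hg
    have h1 := hf.sm (U := insert g Y) (I := X) (A := insert g X) (B := Y)
      (by intro x; simp; tauto) (by intro x hx; exact ⟨Or.inr hx, hXY hx⟩)
    have := hP g hg
    omega
  by_cases hrk : ∀ g ∈ F, ∀ g' ∈ F, f {g, g'} ≤ 1
  · -- `F` has rank one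
    have hP : f {e, g0} ≤ 1 := by
      have h1 := hF.stay {g0} (by intro x hx; rw [mem_singleton_iff.1 hx]; exact hF.sub hg0) (by
        intro g hg
        have := hrk g hg g0 hg0
        have e3 : (insert g {g0} : Set α) = {g, g0} := rfl
        rw [e3]
        omega)
      have := hf.single_le g0
      have e3 : (insert e {g0} : Set α) = {e, g0} := rfl
      rw [e3] at h1
      omega
    have : q = con f {g0} := by
      funext X
      have h1 := hf.sm (U := insert e (insert g0 X)) (I := {e}) (A := {e, g0}) (B := insert e X)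
        (by intro x; simp; tauto) (by intro x; simp; tauto)
      have h2 := hf.sm (U := insert e (insert g0 X)) (I := {g0}) (A := {e, g0}) (B := insert g0 X)
        (by intro x; simp; tauto) (by intro x; simp; tauto)
      have h3 := hf.mono (A := insert e X) (B := insert e (insert g0 X)) (by intro x; simp; tauto)
      have h4 := hf.mono (A := insert g0 X) (B := insert e (insert g0 X)) (by intro x; simp; tauto)
      have h5 : con f {g0} X = f (insert g0 X) - f {g0} := by
        simp only [con]
        rw [show ({g0} ∪ X : Set α) = insert g0 X from rfl]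
      have := hf.single_le g0
      rw [qe, h5]
      omega
    rw [this] at h
    exact ⟨{g0}, by intro x hx; rw [mem_singleton_iff.1 hx]; exact hF.sub hg0, a, ha, b, hb, c, hc,
      d, hd, s, hs, t, ht, h⟩
  push Not at hrk
  obtain ⟨g1, hg1, g2, hg2, hg12⟩ := hrk
  -- two lines
  have two : ∀ a ∈ E, ∀ b ∈ E, ∀ c ∈ E, ∀ d ∈ E, ∀ s ∈ E, ∀ t ∈ E, Mn q a b c d s t →
      (∀ g ∈ F, f (insert g {s, a, b}) ≤ f {s, a, b}) →
      (∀ g ∈ F, f (insert g {s, c, d}) ≤ f {s, c, d}) → HK f E := by
    intro a ha b hb c hc d hd s hs t ht h h1 h2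
    have f1 : f {s, a, b} ≤ 3 := hf.triple_le _ _ _
    have f2 : f {s, c, d} ≤ 3 := hf.triple_le _ _ _
    -- rank of the union of two lines
    have key : ∀ s a b c d : α, s ∈ E → a ∈ E → b ∈ E → c ∈ E → d ∈ E →
        (∀ g ∈ F, f (insert g {s, a, b}) ≤ f {s, a, b}) →
        (∀ g ∈ F, f (insert g {s, c, d}) ≤ f {s, c, d}) →
        3 ≤ q {s, a, b, c, d} → ∀ g ∈ F, ∀ g' ∈ F, ∀ g'' ∈ F, f {s, g, g', g''} ≤ 2 := by
      intro s a b c d hs ha hb hc hd h1 h2 h3 g hg g' hg' g'' hg''
      have i1 : f {s, a, b} ≤ 3 := hf.triple_le _ _ _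
      have i2 : f {s, c, d} ≤ 3 := hf.triple_le _ _ _
      have hsub : ({s, a, b, c, d} : Set α) ⊆ E := by
        intro w hw
        simp only [mem_insert_iff, mem_singleton_iff] at hw
        rcases hw with rfl | rfl | rfl | rfl | rfl <;> assumption
      have i3 := qP {s, a, b, c, d} hsub (pmono {s, a, b} _ (by intro x; simp; tauto) h1)
      have j1 := h1 g hg
      have j2 := pmono {s, a, b} (insert g {s, a, b}) (subset_insert _ _) h1 g' hg'
      have j3 := pmono {s, a, b} (insert g' (insert g {s, a, b})) (by intro x; simp; tauto) h1 g'' hg''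
      have k1 := h2 g hg
      have k2 := pmono {s, c, d} (insert g {s, c, d}) (subset_insert _ _) h2 g' hg'
      have k3 := pmono {s, c, d} (insert g' (insert g {s, c, d})) (by intro x; simp; tauto) h2 g'' hg''
      have l1 := hf.sm (U := {s, a, b, c, d}) (I := {s, g, g', g''})
        (A := insert g'' (insert g' (insert g {s, a, b})))
        (B := insert g'' (insert g' (insert g {s, c, d})))
        (by intro x; simp; tauto) (by intro x; simp; tauto)
      omega
    have u12 : 3 ≤ q {s, a, b, c, d} := h.abc.trans (hqf.mono (by intro x; simp; tauto))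
    have K12 := key s a b c d hs ha hb hc hd h1 h2 u12
    -- a point of `F` not parallel to `s`
    obtain ⟨qs, -⟩ := hqf.single_of_pair (h.sc hqf)
    have hns : ∃ g ∈ F, f {s} + 1 ≤ f (insert g {s}) := by
      rcases qcases {s} (by intro x hx; rw [mem_singleton_iff.1 hx]; exact hs) with ⟨i1, i2⟩ | ⟨-, i2⟩
      · have := hf.single_le s
        omega
      · exact i2
    obtain ⟨g, hg, hgs⟩ := hns
    have fs : 1 ≤ f {s} := qs.trans (qle _)
    have fs' := hf.single_le s
    have fsg : 2 ≤ f {s, g} := by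
      rw [Set.pair_comm]
      have e3 : (insert g {s} : Set α) = {g, s} := rfl
      rw [e3] at hgs
      omega
    have psg : ∀ g' ∈ F, f (insert g' {s, g}) ≤ f {s, g} := by
      intro g' hg'
      have i1 := K12 g hg g' hg' g' hg'
      have i2 := hf.mono (A := insert g' {s, g}) (B := {s, g, g', g'}) (by intro x; simp; tauto)
      omega
    -- a third line gives a contradiction
    have third : ∀ x y z w v : α, x ∈ E → y ∈ E → z ∈ E → w ∈ E → v ∈ E →
        (∀ g ∈ F, f (insert g {x, y, z}) ≤ f {x, y, z}) →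
        (∀ g ∈ F, f (insert g {x, w, v}) ≤ f {x, w, v}) →
        3 ≤ q {x, y, z, w, v} → 2 ≤ q {s, x} → False := by
      intro x y z w v hx hy hz hw hv i1 i2 i3 i4
      have Kx := key x y z w v hx hy hz hw hv i1 i2 i3
      have hp : ∀ g' ∈ F, f (insert g' {s, x}) ≤ f {s, x} := by
        intro g' hg'
        have j1 := K12 g1 hg1 g2 hg2 g' hg'
        have j2 := Kx g1 hg1 g2 hg2 g' hg'
        have j3 := hf.sm (U := insert g' {s, x}) (I := {g1, g2}) (A := {s, g1, g2, g'})
          (B := {x, g1, g2, g'}) (by intro x; simp; tauto) (by intro x; simp; tauto)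
        have j4 := qle {s, x}
        omega
      have j1 := qP {s, x} (by intro y hy; simp at hy; rcases hy with rfl | rfl <;> assumption) hp
      have j2 := hf.pair_le s x
      omega
    -- the other two lines
    rcases qcases {t, a, c} (mem3 t ht a ha c hc) with ⟨m1, m2⟩ | ⟨m1, m2⟩
    · exfalso
      refine third a s b t c ha hs hb ht hc ?_ ?_ ?_ ?_
      · rwa [show ({a, s, b} : Set α) = {s, a, b} by ext; simp; tauto]
      · rwa [show ({a, t, c} : Set α) = {t, a, c} by ext; simp; tauto]
      · exact h.abc.trans (hqf.mono (by intro x; simp; tauto))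
      · rw [Set.pair_comm]; exact h.as hqf
    rcases qcases {t, b, d} (mem3 t ht b hb d hd) with ⟨n1, n2⟩ | ⟨n1, n2⟩
    · exfalso
      refine third b s a t d hb hs ha ht hd ?_ ?_ ?_ ?_
      · rwa [show ({b, s, a} : Set α) = {s, a, b} by ext; simp; tauto]
      · rwa [show ({b, t, d} : Set α) = {t, b, d} by ext; simp; tauto]
      · exact h.dst.trans (hqf.mono (by intro x; simp; tauto))
      · rw [Set.pair_comm]; exact h.bs hqf
    -- the new configuration
    have hgE : g ∈ E := hF.sub hg
    have cs : ∀ X, con f {s} X = f (insert s X) - f {s} := by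
      intro X
      simp only [con]
      rw [show ({s} ∪ X : Set α) = insert s X from rfl]
    have mem4 : ∀ x ∈ E, ∀ y ∈ E, ∀ z ∈ E, ({s, x, y, z} : Set α) ⊆ E := by
      intro x hx y hy z hz w hw
      simp only [mem_insert_iff, mem_singleton_iff] at hw
      rcases hw with rfl | rfl | rfl | rfl <;> assumption
    refine ⟨{s}, by intro x hx; rw [mem_singleton_iff.1 hx]; exact hs, a, ha, b, hb, c, hc,
      d, hd, g, hgE, t, ht, ?_, ?_, ?_, ?_, ?_, ?_⟩
    · have i1 := qP {s, a, b, c} (mem4 a ha b hb c hc) (pmono {s, a, b} _ (by intro x; simp; tauto) h1)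
      have i2 := h.abc.trans (hqf.mono (A := {a, b, c}) (B := {s, a, b, c}) (by intro x; simp; tauto))
      rw [cs]
      omega
    · have i1 := qP {s, d, g, t} (mem4 d hd g hgE t ht)
        (pmono {s, g} _ (by intro x; simp; tauto) psg)
      have i2 := h.dst.trans (hqf.mono (A := {d, s, t}) (B := {s, d, g, t}) (by intro x; simp; tauto))
      rw [cs]
      omega
    · have i1 := h1 g hg
      rw [cs]
      rw [show (insert s {g, a, b} : Set α) = insert g {s, a, b} by ext; simp; tauto]
      omega
    · have i1 := h2 g hg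
      rw [cs]
      rw [show (insert s {g, c, d} : Set α) = insert g {s, c, d} by ext; simp; tauto]
      omega
    · have i1 := hf.unit s {t, a, c}
      have := h.tac
      rw [cs]
      omega
    · have i1 := hf.unit s {t, b, d}
      have := h.tbd
      rw [cs]
      omega
  -- exactly one line
  have one : ∀ a ∈ E, ∀ b ∈ E, ∀ c ∈ E, ∀ d ∈ E, ∀ s ∈ E, ∀ t ∈ E, Mn q a b c d s t →
      (∀ g ∈ F, f (insert g {s, a, b}) ≤ f {s, a, b}) →
      q {s, c, d} = f {s, c, d} → q {t, a, c} = f {t, a, c} → q {t, b, d} = f {t, b, d} → False := by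
    intro a ha b hb c hc d hd s hs t ht h h1 h2 h3 h4
    have i1 := hf.sm (U := {s, c, d, t, a}) (I := {c}) (A := {s, c, d}) (B := {t, a, c})
      (by intro x; simp; tauto) (by intro x; simp; tauto)
    have i2 := hf.sm (U := {s, c, d, t, a, b}) (I := {d, t}) (A := {s, c, d, t, a}) (B := {t, b, d})
      (by intro x; simp; tauto) (by intro x; simp; tauto)
    obtain ⟨-, j1⟩ := hqf.single_of_pair (h.sc hqf)
    have j1' := qle {c}
    obtain ⟨-, j2, -⟩ := hqf.pair_of_triple h.dst
    have j2' := qle {d, t}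
    have hsub : ({s, c, d, t, a, b} : Set α) ⊆ E := by
      intro w hw
      simp only [mem_insert_iff, mem_singleton_iff] at hw
      rcases hw with rfl | rfl | rfl | rfl | rfl | rfl <;> assumption
    have k1 := qP {s, c, d, t, a, b} hsub (pmono {s, a, b} _ (by intro x; simp; tauto) h1)
    have k2 := h.abc.trans (hqf.mono (A := {a, b, c}) (B := {s, c, d, t, a, b}) (by intro x; simp; tauto))
    have := h.scd
    have := h.tac
    have := h.tbd
    omega
  -- some line
  have some : ∀ a ∈ E, ∀ b ∈ E, ∀ c ∈ E, ∀ d ∈ E, ∀ s ∈ E, ∀ t ∈ E, Mn q a b c d s t →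
      (∀ g ∈ F, f (insert g {s, a, b}) ≤ f {s, a, b}) → HK f E := by
    intro a ha b hb c hc d hd s hs t ht h h1
    rcases qcases {s, c, d} (mem3 s hs c hc d hd) with ⟨m2, m2'⟩ | ⟨m2, m2'⟩
    · exact two a ha b hb c hc d hd s hs t ht h h1 m2'
    rcases qcases {t, a, c} (mem3 t ht a ha c hc) with ⟨m3, m3'⟩ | ⟨m3, m3'⟩
    · refine two s hs b hb c hc t ht a ha d hd (h.swp hqf) ?_ ?_
      · rwa [show ({a, s, b} : Set α) = {s, a, b} by ext; simp; tauto]
      · rwa [show ({a, c, t} : Set α) = {t, a, c} by ext; simp; tauto]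
    rcases qcases {t, b, d} (mem3 t ht b hb d hd) with ⟨m4, m4'⟩ | ⟨m4, m4'⟩
    · refine two d hd t ht s hs a ha b hb c hc h.rot.rot.rot ?_ ?_
      · rwa [show ({b, d, t} : Set α) = {t, b, d} by ext; simp; tauto]
      · rwa [show ({b, s, a} : Set α) = {s, a, b} by ext; simp; tauto]
    exact (one a ha b hb c hc d hd s hs t ht h h1 m2 m3 m4).elim
  -- conclusion
  rcases qcases {s, a, b} (mem3 s hs a ha b hb) with ⟨m1, m1'⟩ | ⟨m1, m1'⟩
  · exact some a ha b hb c hc d hd s hs t ht h m1'
  rcases qcases {s, c, d} (mem3 s hs c hc d hd) with ⟨m2, m2'⟩ | ⟨m2, m2'⟩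
  · refine some d hd s hs t ht a ha c hc b hb h.rot ?_
    rwa [show ({c, d, s} : Set α) = {s, c, d} by ext; simp; tauto]
  rcases qcases {t, a, c} (mem3 t ht a ha c hc) with ⟨m3, m3'⟩ | ⟨m3, m3'⟩
  · refine some a ha c hc b hb d hd t ht s hs h.rot.rot ?_
    exact m3'
  rcases qcases {t, b, d} (mem3 t ht b hb d hd) with ⟨m4, m4'⟩ | ⟨m4, m4'⟩
  · refine some d hd t ht s hs a ha b hb c hc h.rot.rot.rot ?_
    rwa [show ({b, d, t} : Set α) = {t, b, d} by ext; simp; tauto]
  refine ⟨∅, empty_subset _, a, ha, b, hb, c, hc, d, hd, s, hs, t, ht, ?_, ?_, ?_, ?_, ?_, ?_⟩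
  · have := h.abc.trans (qle _)
    simp only [con, empty_union, hf.zero]
    omega
  · have := h.dst.trans (qle _)
    simp only [con, empty_union, hf.zero]
    omega
  · have := h.sab
    simp only [con, empty_union, hf.zero]
    omega
  · have := h.scd
    simp only [con, empty_union, hf.zero]
    omega
  · have := h.tac
    simp only [con, empty_union, hf.zero]
    omega
  · have := h.tbd
    simp only [con, empty_union, hf.zero]
    omega

theorem HK.of_con {C : Set α} (hC : C ⊆ E) (h : HK (con f C) E) : HK f E := by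
  obtain ⟨D, hD, a, ha, b, hb, c, hc, d, hd, s, hs, t, ht, h⟩ := h
  rw [con_con] at h
  exact ⟨C ∪ D, union_subset hC hD, a, ha, b, hb, c, hc, d, hd, s, hs, t, ht, h⟩

theorem HK.mono {E' : Set α} (hE : E ⊆ E') (h : HK f E) : HK f E' := by
  obtain ⟨D, hD, a, ha, b, hb, c, hc, d, hd, s, hs, t, ht, h⟩ := h
  exact ⟨D, hD.trans hE, a, hE ha, b, hE hb, c, hE hc, d, hE hd, s, hE hs, t, hE ht, h⟩

theorem Mn.nonloops {q : Set α → ℤ} (hq : RF q) (h : Mn q a b c d s t) :
    1 ≤ q {a} ∧ 1 ≤ q {b} ∧ 1 ≤ q {c} ∧ 1 ≤ q {d} ∧ 1 ≤ q {s} ∧ 1 ≤ q {t} := by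
  obtain ⟨h1, h2, h3⟩ := hq.pair_of_triple h.abc
  obtain ⟨i1, i2, i3⟩ := hq.pair_of_triple h.dst
  exact ⟨(hq.single_of_pair h1).1, (hq.single_of_pair h1).2, (hq.single_of_pair h2).2,
    (hq.single_of_pair i1).1, (hq.single_of_pair i1).2, (hq.single_of_pair i2).2⟩

theorem ne_of_pair {q : Set α → ℤ} (hq : RF q) {x y : α} (h : 2 ≤ q {x, y}) : x ≠ y := by
  rintro rfl
  have := hq.single_le x
  rw [Set.pair_eq_singleton] at h
  omega

/-- Replacing the new element `s`. -/
theorem hk_s {q : Set α → ℤ} (hq : RF q) (hF : Fr q E F e) (heE : e ∉ E) :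
    ∀ a ∈ insert e E, ∀ b ∈ insert e E, ∀ c ∈ insert e E, ∀ d ∈ insert e E, ∀ t ∈ insert e E,
    Mn q a b c d e t → HK q E := by
  intro a ha b hb c hc d hd t ht h
  have na := ne_of_pair hq (h.as hq)
  have nb := ne_of_pair hq (h.bs hq)
  have nc := (ne_of_pair hq (h.sc hq)).symm
  obtain ⟨i1, i2, i3⟩ := hq.pair_of_triple h.dst
  have nd := ne_of_pair hq i1
  have nt := (ne_of_pair hq i3).symm
  have ha' := ha.resolve_left na
  have hb' := hb.resolve_left nb
  have hc' := hc.resolve_left nc
  have hd' := hd.resolve_left nd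
  have ht' := ht.resolve_left nt
  obtain ⟨g, hg, hM⟩ := replace_s hq hF ha' hb' hc' hd' h
  refine ⟨∅, empty_subset _, a, ha', b, hb', c, hc', d, hd', g, hF.sub hg, t, ht', ?_⟩
  have : con q ∅ = q := by
    funext X
    simp [con, hq.zero]
  rwa [this]

/-- A set without an `M(K₄)`-minor keeps this property if an element is added freely. -/
theorem HK.of_free (hf : RF f) (hF : Fr f E F e) (heE : e ∉ E) (h : HK f (insert e E)) :
    HK f E := by
  obtain ⟨C, hC, a, ha, b, hb, c, hc, d, hd, s, hs, t, ht, h⟩ := h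
  have hq := hf.con C
  by_cases heC : e ∈ C
  · have hC' : C \ {e} ⊆ E := by
      intro x hx
      exact (hC hx.1).resolve_left hx.2
    have hCe : (C \ {e}) ∪ {e} = C := by
      ext x
      simp only [mem_union, mem_sdiff, mem_singleton_iff]
      constructor
      · rintro (h | rfl)
        · exact h.1
        · exact heC
      · intro h
        by_cases hx : x = e
        · exact Or.inr hx
        · exact Or.inl ⟨h, hx⟩
    have key : ∀ x ∈ insert e E, 1 ≤ con f C {x} → x ∈ E := by
      intro x hx h1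
      refine hx.resolve_left ?_
      rintro rfl
      have : C ∪ {x} = C := by
        ext y
        simp only [mem_union, mem_singleton_iff]
        constructor
        · rintro (h | rfl)
          · exact h
          · exact heC
        · exact Or.inl
      simp only [con, this] at h1
      omega
    obtain ⟨n1, n2, n3, n4, n5, n6⟩ := h.nonloops hq
    have h' : Mn (con (con f (C \ {e})) {e}) a b c d s t := by
      rw [con_con, hCe]
      exact h
    exact HK.of_con hC' (contract_e (hf.con _) (hF.con hC') (key a ha n1) (key b hb n2)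
      (key c hc n3) (key d hd n4) (key s hs n5) (key t ht n6) h')
  · have hC' : C ⊆ E := by
      intro x hx
      refine (hC hx).resolve_left ?_
      rintro rfl
      exact heC hx
    have hF' := hF.con hC'
    refine HK.of_con hC' ?_
    by_cases e1 : e = s
    · subst e1
      exact hk_s hq hF' heE a ha b hb c hc d hd t ht h
    by_cases e2 : e = c
    · subst e2
      exact hk_s hq hF' heE d hd s hs t ht a ha b hb h.rot
    by_cases e3 : e = t
    · subst e3
      exact hk_s hq hF' heE a ha c hc b hb d hd s hs h.rot.rot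
    by_cases e4 : e = b
    · subst e4
      exact hk_s hq hF' heE d hd t ht s hs a ha c hc h.rot.rot.rot
    by_cases e5 : e = a
    · subst e5
      exact hk_s hq hF' heE s hs b hb c hc t ht d hd (h.swp hq)
    by_cases e6 : e = d
    · subst e6
      exact hk_s hq hF' heE c hc s hs t ht b hb a ha (h.rot.swp hq)
    refine ⟨∅, empty_subset _, a, ha.resolve_left (Ne.symm e5), b, hb.resolve_left (Ne.symm e4), c,
      hc.resolve_left (Ne.symm e2), d, hd.resolve_left (Ne.symm e6), s,
      hs.resolve_left (Ne.symm e1), t, ht.resolve_left (Ne.symm e3), ?_⟩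
    have : con (con f C) ∅ = con f C := by
      rw [con_con, union_empty]
    rwa [this]

end

end Pool.Agent.K9h62.CC
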