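import Mathlib
import Pool.Agent.Helper442.FE.Rk
import Pool.Agent.K9h62.CC.Defs
import Pool.Agent.K9h62.CC.Free

/-!
# Minors isomorphic to `M(K₄)` and the rank function
-/

set_option autoImplicit false

namespace Pool.Agent.K9h62.CC

open Set Pool.Agent.Helper442.FE
open scoped Matroid

/-- The 16 bases of `M(K₄)`, the elements being numbered `a, b, c, d, s, t`. -/
def bases : Finset (Finset (Fin 6)) :=
  {{0, 1, 2}, {0, 1, 3}, {0, 1, 5}, {0, 2, 3}, {0, 2, 4}, {0, 3, 4}, {0, 3, 5}, {0, 4, 5},
    {1, 2, 3}, {1, 2, 4}, {1, 2, 5}, {1, 3, 4}, {1, 4, 5}, {2, 3, 5}, {2, 4, 5}, {3, 4, 5}}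

/-- The four three-point lines. -/
def lines : Finset (Finset (Fin 6)) := {{4, 0, 1}, {4, 2, 3}, {5, 0, 2}, {5, 1, 3}}

theorem bases_card : ∀ T ∈ bases, T.card = 3 := by decide

theorem lines_card : ∀ T ∈ lines, T.card = 3 := by decide

set_option maxRecDepth 20000 in
theorem exists_base : ∀ J : Finset (Fin 6), J.card ≤ 3 → (∀ L ∈ lines, ¬ L ⊆ J) →
    ∃ T ∈ bases, J ⊆ T := by decide

theorem pair_base : ∀ i j : Fin 6, i ≠ j → ∃ T ∈ bases, i ∈ T ∧ j ∈ T := by decide

section

variable {α : Type} {f : Set α → ℤ} {v : Fin 6 → α}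

theorem Mn.bases (hf : RF f) (h : Mn f (v 0) (v 1) (v 2) (v 3) (v 4) (v 5)) :
    ∀ T ∈ bases, 3 ≤ f (v '' (T : Set (Fin 6))) := by
  intro T hT
  simp only [CC.bases, Finset.mem_insert, Finset.mem_singleton] at hT
  rcases hT with rfl | rfl | rfl | rfl | rfl | rfl | rfl | rfl | rfl | rfl | rfl | rfl | rfl |
    rfl | rfl | rfl
  all_goals simp only [Finset.coe_insert, Finset.coe_singleton, image_insert_eq, image_singleton]
  · exact h.abc
  · exact h.abd hf
  · exact h.abt hf
  · exact h.rot.rot.abd hf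
  · exact h.rot.rot.abt hf
  · have := h.rot.abd hf
    rwa [show ({v 3, v 4, v 0} : Set α) = {v 0, v 3, v 4} by ext; simp; tauto] at this
  · have := h.rot.rot.rot.abd hf
    rwa [show ({v 3, v 5, v 0} : Set α) = {v 0, v 3, v 5} by ext; simp; tauto] at this
  · exact h.ast hf
  · have := h.rot.ast hf
    rwa [show ({v 3, v 2, v 1} : Set α) = {v 1, v 2, v 3} by ext; simp; tauto] at this
  · exact h.bcs hf
  · have := h.rot.rot.bcs hf
    rwa [show ({v 2, v 1, v 5} : Set α) = {v 1, v 2, v 5} by ext; simp; tauto] at this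
  · have := h.rot.abt hf
    rwa [show ({v 3, v 4, v 1} : Set α) = {v 1, v 3, v 4} by ext; simp; tauto] at this
  · have := h.rot.rot.rot.bcs hf
    rwa [show ({v 5, v 4, v 1} : Set α) = {v 1, v 4, v 5} by ext; simp; tauto] at this
  · have := h.rot.rot.rot.abt hf
    rwa [show ({v 3, v 5, v 2} : Set α) = {v 2, v 3, v 5} by ext; simp; tauto] at this
  · have := h.rot.bcs hf
    rwa [show ({v 4, v 5, v 2} : Set α) = {v 2, v 4, v 5} by ext; simp; tauto] at this
  · exact h.dst

theorem Mn.lines (h : Mn f (v 0) (v 1) (v 2) (v 3) (v 4) (v 5)) :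
    ∀ T ∈ lines, f (v '' (T : Set (Fin 6))) ≤ 2 := by
  intro T hT
  simp only [CC.lines, Finset.mem_insert, Finset.mem_singleton] at hT
  rcases hT with rfl | rfl | rfl | rfl
  all_goals simp only [Finset.coe_insert, Finset.coe_singleton, image_insert_eq, image_singleton]
  · exact h.sab
  · exact h.scd
  · exact h.tac
  · exact h.tbd

end

theorem rf_rk {α : Type} {M : Matroid α} (hM : M.E.Finite) : RF (rk M) where
  zero := rk_empty M
  mono := rk_mono hM
  sub := rk_submod hM
  unit := fun x A => rk_insert_le hM A x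

theorem rk_eq_of_isBasis' {α : Type} {M : Matroid α} (hM : M.E.Finite) {I X : Set α}
    (h : M.IsBasis' I X) : rk M X = I.ncard := by
  rw [← rk_indep hM h.indep]
  unfold rk
  rw [h.eRk_eq_eRk]

/-- The rank function of a contraction. -/
theorem rk_con {α : Type} {M : Matroid α} (hM : M.E.Finite) {C X : Set α} (hC : C ⊆ M.E)
    (hX : X ⊆ M.E \ C) : rk (M ／ C) X = con (rk M) C X := by
  have hMC : (M ／ C).E.Finite := hM.subset sdiff_subset
  obtain ⟨I, hI⟩ := M.exists_isBasis C
  obtain ⟨J, hJ⟩ := (M ／ C).exists_isBasis X (by simpa using hX)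
  have hind := hI.contract_indep_iff.1 hJ.indep
  have e1 : rk (M ／ C) X = J.ncard := rk_eq_of_isBasis' hMC hJ.isBasis'
  have e2 : rk M C = I.ncard := rk_eq_of_isBasis' hM hI.isBasis'
  have hdj : Disjoint J I := (hind.2.symm.mono_right hI.subset)
  have e3 : rk M (J ∪ I) = J.ncard + I.ncard := by
    rw [rk_indep hM hind.1]
    exact_mod_cast ncard_union_eq hdj
      (hM.subset (subset_union_left.trans hind.1.subset_ground))
      (hM.subset hI.indep.subset_ground)
  have h1 : C ∪ X ⊆ M.closure (J ∪ I) := by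
    apply union_subset
    · exact hI.subset_closure.trans (M.closure_subset_closure subset_union_right)
    · intro y hy
      have hyE : y ∈ M.E := (hX hy).1
      by_cases hyJ : y ∈ J
      · exact M.mem_closure_of_mem (Or.inl hyJ) (by exact hind.1.subset_ground)
      rw [hind.1.mem_closure_iff]
      left
      have hnot : ¬ (M ／ C).Indep (insert y J) := by
        intro hh
        exact hyJ (hJ.mem_of_insert_indep hy hh)
      rw [hI.contract_indep_iff] at hnot
      rw [Matroid.dep_iff]
      refine ⟨fun hh => hnot ⟨by rwa [insert_union], ?_⟩, ?_⟩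
      · rw [Set.disjoint_right]
        intro z hz hz2
        rcases hz with rfl | hz
        · exact (hX hy).2 hz2
        · exact Set.disjoint_left.1 hind.2 hz2 hz
      · exact insert_subset hyE hind.1.subset_ground
  have e4 : rk M (C ∪ X) ≤ rk M (J ∪ I) := by
    refine (rk_mono hM h1).trans (le_of_eq ?_)
    unfold rk
    rw [Matroid.eRk_closure_eq]
  have e5 : rk M (J ∪ I) ≤ rk M (C ∪ X) := rk_mono hM (by
    apply union_subset
    · exact hJ.subset.trans subset_union_right
    · exact hI.subset.trans subset_union_left)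
  simp only [con]
  omega

theorem rk_restrict {α : Type} {M : Matroid α} {R X : Set α} (h : X ⊆ R) :
    rk (M ↾ R) X = rk M X := by
  unfold rk
  rw [Matroid.restrict_eRk_eq _ h]

/-- The independent sets of a matroid with the essential properties of `M(K₄)`. -/
theorem pattern {α : Type} {M : Matroid α} (hM : M.E.Finite) {v : Fin 6 → α}
    (hv : ∀ i, v i ∈ M.E) (h : Mn (rk M) (v 0) (v 1) (v 2) (v 3) (v 4) (v 5)) :
    Function.Injective v ∧
    ∀ J : Finset (Fin 6), M.Indep (v '' (J : Set (Fin 6))) ↔ ∃ T ∈ bases, J ⊆ T := by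
  classical
  have hf := rf_rk hM
  have hsub : ∀ J : Set (Fin 6), v '' J ⊆ M.E := by
    rintro J _ ⟨i, -, rfl⟩
    exact hv i
  have hcard : ∀ J : Finset (Fin 6), ((v '' (J : Set (Fin 6))).ncard : ℤ) ≤ J.card := by
    intro J
    have := Set.ncard_image_le (f := v) (J : Set (Fin 6)).toFinite
    rw [Set.ncard_coe_finset] at this
    exact_mod_cast this
  have hb : ∀ T ∈ bases, M.Indep (v '' (T : Set (Fin 6))) ∧ InjOn v (T : Set (Fin 6)) := by
    intro T hT
    have h1 := h.bases hf T hT
    have h2 := rk_le_ncard M (A := v '' (T : Set (Fin 6))) (Set.toFinite _)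
    have h3 := hcard T
    rw [bases_card T hT] at h3
    refine ⟨(indep_iff_rk hM (hsub _)).2 (by push_cast at h3; omega), ?_⟩
    refine Set.injOn_of_ncard_image_eq ?_ (Set.toFinite _)
    rw [Set.ncard_coe_finset, bases_card T hT]
    push_cast at h3
    omega
  have hinj : Function.Injective v := by
    intro i j hij
    by_contra hne
    obtain ⟨T, hT, hi, hj⟩ := pair_base i j hne
    exact hne ((hb T hT).2 hi hj hij)
  refine ⟨hinj, fun J => ⟨fun hJ => ?_, fun ⟨T, hT, hJT⟩ => ?_⟩⟩
  · apply exists_base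
    · have h1 := rk_indep hM hJ
      rw [Set.ncard_image_of_injective _ hinj, Set.ncard_coe_finset] at h1
      have h2 := h.all_le hf
      have h3 := hf.mono (A := v '' (J : Set (Fin 6))) (B := {v 0, v 1, v 2, v 3, v 4, v 5}) (by
        rintro _ ⟨i, -, rfl⟩
        fin_cases i <;> simp)
      omega
    · intro L hL hLJ
      have h1 : M.Indep (v '' (L : Set (Fin 6))) := hJ.subset (image_mono (by exact_mod_cast hLJ))
      have h2 := rk_indep hM h1
      rw [Set.ncard_image_of_injective _ hinj, Set.ncard_coe_finset, lines_card L hL] at h2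
      have h3 := h.lines L hL
      push_cast at h2
      omega
  · exact (hb T hT).1.subset (image_mono (by exact_mod_cast hJT))

/-- Isomorphism by numbering the elements. -/
theorem iso_of_numbering {α β : Type} {M : Matroid α} {N : Matroid β} {v : Fin 6 → α}
    {w : Fin 6 → β} (hv : Function.Injective v) (hw : Function.Injective w)
    (hvE : range v = M.E) (hwE : range w = N.E)
    (h : ∀ J : Finset (Fin 6), M.Indep (v '' (J : Set (Fin 6))) ↔ N.Indep (w '' (J : Set (Fin 6)))) :
    Iso M N := by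
  classical
  let e1 : Fin 6 ≃ M.E := (Equiv.ofInjective v hv).trans (Equiv.setCongr hvE)
  let e2 : Fin 6 ≃ N.E := (Equiv.ofInjective w hw).trans (Equiv.setCongr hwE)
  have he1 : ∀ i, (e1 i : α) = v i := fun i => rfl
  have he2 : ∀ i, (e2 i : β) = w i := fun i => rfl
  refine ⟨e1.symm.trans e2, fun I => ?_⟩
  have h1 := h (Finset.univ.filter fun i => e1 i ∈ I)
  have h2 : v '' ((Finset.univ.filter fun i => e1 i ∈ I : Finset (Fin 6)) : Set (Fin 6)) =
      Subtype.val '' I := by
    ext x
    simp only [mem_image, Finset.coe_filter, Finset.mem_univ, true_and, mem_ofPred_eq]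
    constructor
    · rintro ⟨i, hi, rfl⟩
      exact ⟨e1 i, hi, he1 i⟩
    · rintro ⟨y, hy, rfl⟩
      refine ⟨e1.symm y, by simpa using hy, ?_⟩
      rw [← he1]
      simp
  have h3 : w '' ((Finset.univ.filter fun i => e1 i ∈ I : Finset (Fin 6)) : Set (Fin 6)) =
      Subtype.val '' ((e1.symm.trans e2) '' I) := by
    ext x
    simp only [mem_image, Finset.coe_filter, Finset.mem_univ, true_and, mem_ofPred_eq,
      Equiv.trans_apply]
    constructor
    · rintro ⟨i, hi, rfl⟩
      exact ⟨e2 i, ⟨e1 i, hi, by simp⟩, he2 i⟩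
    · rintro ⟨_, ⟨y, hy, rfl⟩, rfl⟩
      refine ⟨e1.symm y, by simpa using hy, ?_⟩
      rw [← he2]
  rw [h2, h3] at h1
  exact h1

end Pool.Agent.K9h62.CC
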