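import Mathlib
import Pool.Agent.K9h62.CC.Minor
import Pool.Agent.Helper236.K4

/-!
# `M(K₄)` and the rank function; minors isomorphic to `M(K₄)`
-/

set_option autoImplicit false

namespace Pool.Agent.K9h62.CC

open Set Pool.Agent.Helper442.FE
open scoped Matroid

theorem MK4_E : MK4.E = (⊤ : SimpleGraph (Fin 4)).edgeSet := rfl

theorem MK4_indep {I : Set (Sym2 (Fin 4))} :
    MK4.Indep I ↔ I ⊆ (⊤ : SimpleGraph (Fin 4)).edgeSet ∧ (SimpleGraph.fromEdgeSet I).IsAcyclic :=
  Iff.rfl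

theorem MK4_complete : Helper236.IsCompleteGraphMatroid 4 MK4 :=
  ⟨rfl, fun _ hI => ⟨fun h => h.2, fun h => ⟨hI, h⟩⟩⟩

/-- A set of edges is acyclic if every edge of it is separated by a cut from the other ones. -/
theorem acyclic_of_cuts {n : ℕ} {I : Finset (Sym2 (Fin n))}
    (h : ∀ e ∈ I, ∃ A : Finset (Fin n), ∀ x y : Fin n, s(x, y) ∈ I →
      ((x ∈ A ↔ y ∈ A) ↔ s(x, y) ≠ e)) :
    (SimpleGraph.fromEdgeSet (I : Set (Sym2 (Fin n)))).IsAcyclic := by
  rw [SimpleGraph.isAcyclic_iff_forall_isBridge]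
  intro e he
  induction e with
  | _ a b =>
  have he' : s(a, b) ∈ I := by
    have := (SimpleGraph.mem_edgeSet _).1 he
    rw [SimpleGraph.fromEdgeSet_adj] at this
    exact_mod_cast this.1
  obtain ⟨A, hA⟩ := h _ he'
  rw [SimpleGraph.isBridge_iff]
  rintro ⟨w⟩
  have key : ∀ u v, ((SimpleGraph.fromEdgeSet (I : Set (Sym2 (Fin n)))).deleteEdges
      {s(a, b)}).Walk u v → (u ∈ A ↔ v ∈ A) := by
    intro u v w
    induction w with
    | nil => exact Iff.rfl
    | cons hadj p ih =>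
      rename_i x y z
      rw [SimpleGraph.deleteEdges_adj, SimpleGraph.fromEdgeSet_adj] at hadj
      have h1 : s(x, y) ∈ I := by exact_mod_cast hadj.1.1
      exact ((hA x y h1).2 (by simpa using hadj.2)).trans ih
  have h1 := key a b w
  exact (hA a b he').1 h1 rfl

/-- The numbering of the edges of `K₄`. -/
def w4 : Fin 6 → Sym2 (Fin 4) := ![s(1, 3), s(1, 2), s(0, 3), s(0, 2), s(2, 3), s(0, 1)]

theorem w4_inj : Function.Injective w4 := by decide

theorem w4_range : range w4 = MK4.E := by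
  rw [MK4_E]
  ext e
  constructor
  · rintro ⟨i, rfl⟩
    fin_cases i <;> simp [w4]
  · intro he
    induction e with
    | _ x y =>
    have hxy : x ≠ y := by simpa using he
    have : ∀ x y : Fin 4, x ≠ y → ∃ i, w4 i = s(x, y) := by decide
    exact this x y hxy

theorem MK4_finite : MK4.E.Finite := Set.toFinite _

theorem path_indep {I : Finset (Sym2 (Fin 4))}
    (hI : ∀ e ∈ I, ¬ e.IsDiag)
    (h : ∀ e ∈ I, ∃ A : Finset (Fin 4), ∀ x y : Fin 4, s(x, y) ∈ I →
      ((x ∈ A ↔ y ∈ A) ↔ s(x, y) ≠ e)) : MK4.Indep (I : Set (Sym2 (Fin 4))) := by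
  refine ⟨fun e he => ?_, acyclic_of_cuts h⟩
  have := hI e (by exact_mod_cast he)
  simpa using this

theorem MK4_Mn : Mn (rk MK4) (w4 0) (w4 1) (w4 2) (w4 3) (w4 4) (w4 5) := by
  obtain ⟨-, h1, h2, h3, h4⟩ := Helper236.K4_facts MK4_complete
  have dep : ∀ x y z : Sym2 (Fin 4), ¬ x.IsDiag → ¬ y.IsDiag → ¬ z.IsDiag →
      x ≠ y → x ≠ z → y ≠ z →
      ¬ MK4.Indep {x, y, z} → rk MK4 {x, y, z} ≤ 2 := by
    intro x y z hx hy hz hxy hxz hyz hd
    by_contra hcon
    apply hd
    rw [indep_iff_rk MK4_finite]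
    · have : ({x, y, z} : Set (Sym2 (Fin 4))).ncard ≤ 3 := by
        refine (Set.ncard_insert_le _ _).trans ?_
        have := Set.ncard_insert_le y {z}
        rw [Set.ncard_singleton] at this
        omega
      omega
    · intro e he
      simp only [mem_insert_iff, mem_singleton_iff] at he
      rw [MK4_E]
      rcases he with rfl | rfl | rfl <;> simpa
  have ind : ∀ x y z : Sym2 (Fin 4), x ≠ y → x ≠ z → y ≠ z →
      MK4.Indep {x, y, z} → 3 ≤ rk MK4 {x, y, z} := by
    intro x y z hxy hxz hyz hi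
    rw [rk_indep MK4_finite hi]
    have : ({x, y, z} : Set (Sym2 (Fin 4))).ncard = 3 := Set.ncard_eq_three.2
      ⟨x, y, z, hxy, hxz, hyz, rfl⟩
    omega
  refine ⟨?_, ?_, ?_, ?_, ?_, ?_⟩
  · refine ind _ _ _ (by decide) (by decide) (by decide) ?_
    have := path_indep (I := {s(1, 3), s(1, 2), s(0, 3)}) (by decide) (by decide)
    simpa [w4] using this
  · refine ind _ _ _ (by decide) (by decide) (by decide) ?_
    have := path_indep (I := {s(0, 2), s(2, 3), s(0, 1)}) (by decide) (by decide)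
    simpa [w4] using this
  · have := dep s(1, 2) s(1, 3) s(2, 3) (by decide) (by decide) (by decide) (by decide) (by decide)
      (by decide) h4
    rwa [show ({s(1, 2), s(1, 3), s(2, 3)} : Set (Sym2 (Fin 4))) = {w4 4, w4 0, w4 1} by
      ext; simp [w4]; tauto] at this
  · have := dep s(0, 2) s(0, 3) s(2, 3) (by decide) (by decide) (by decide) (by decide) (by decide)
      (by decide) h3
    rwa [show ({s(0, 2), s(0, 3), s(2, 3)} : Set (Sym2 (Fin 4))) = {w4 4, w4 2, w4 3} by
      ext; simp [w4]; tauto] at this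
  · have := dep s(0, 1) s(0, 3) s(1, 3) (by decide) (by decide) (by decide) (by decide) (by decide)
      (by decide) h2
    rwa [show ({s(0, 1), s(0, 3), s(1, 3)} : Set (Sym2 (Fin 4))) = {w4 5, w4 0, w4 2} by
      ext; simp [w4]; tauto] at this
  · have := dep s(0, 1) s(0, 2) s(1, 2) (by decide) (by decide) (by decide) (by decide) (by decide)
      (by decide) h1
    rwa [show ({s(0, 1), s(0, 2), s(1, 2)} : Set (Sym2 (Fin 4))) = {w4 5, w4 1, w4 3} by
      ext; simp [w4]; tauto] at this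

theorem MK4_pattern (J : Finset (Fin 6)) :
    MK4.Indep (w4 '' (J : Set (Fin 6))) ↔ ∃ T ∈ bases, J ⊆ T :=
  (pattern MK4_finite (fun i => by rw [← w4_range]; exact ⟨i, rfl⟩) MK4_Mn).2 J

end Pool.Agent.K9h62.CC
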