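import Mathlib
import Pool.Agent.K9h62.CC.K4

/-!
# A matroid has a minor isomorphic to `M(K₄)` iff its rank function has one
-/

set_option autoImplicit false

namespace Pool.Agent.K9h62.CC

open Set Pool.Agent.Helper442.FE
open scoped Matroid

theorem Mn.congr {α : Type} {f g : Set α → ℤ} {S : Set α} {a b c d s t : α}
    (h : Mn f a b c d s t) (ha : a ∈ S) (hb : b ∈ S) (hc : c ∈ S) (hd : d ∈ S) (hs : s ∈ S)
    (ht : t ∈ S) (hfg : ∀ X ⊆ S, f X = g X) : Mn g a b c d s t := by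
  have h3 : ∀ x ∈ S, ∀ y ∈ S, ∀ z ∈ S, f {x, y, z} = g {x, y, z} := by
    intro x hx y hy z hz
    apply hfg
    intro w hw
    simp only [mem_insert_iff, mem_singleton_iff] at hw
    rcases hw with rfl | rfl | rfl <;> assumption
  exact ⟨h3 a ha b hb c hc ▸ h.abc, h3 d hd s hs t ht ▸ h.dst, h3 s hs a ha b hb ▸ h.sab,
    h3 s hs c hc d hd ▸ h.scd, h3 t ht a ha c hc ▸ h.tac, h3 t ht b hb d hd ▸ h.tbd⟩

/-- The rank function is invariant under isomorphism. -/
theorem rk_iso {α β : Type} {M : Matroid α} {N : Matroid β} (hM : M.E.Finite) (hN : N.E.Finite)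
    (e : M.E ≃ N.E)
    (he : ∀ I : Set M.E, M.Indep (Subtype.val '' I) ↔ N.Indep (Subtype.val '' (e '' I)))
    (A : Set M.E) : rk M (Subtype.val '' A) = rk N (Subtype.val '' (e '' A)) := by
  apply le_antisymm
  · exact rk_iso_le hM hN e (fun I => (he I).1) A
  · have := rk_iso_le hN hM e.symm (fun I hI => by
      rw [he]
      convert hI using 2
      ext x
      simp) (e '' A)
    rwa [e.symm_image_image] at this

theorem Mn.of_iso {α β : Type} {M : Matroid α} {N : Matroid β} (hM : M.E.Finite)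
    (hN : N.E.Finite) (e : M.E ≃ N.E)
    (he : ∀ I : Set M.E, M.Indep (Subtype.val '' I) ↔ N.Indep (Subtype.val '' (e '' I)))
    {a b c d s t : M.E} (h : Mn (rk N) (e a).1 (e b).1 (e c).1 (e d).1 (e s).1 (e t).1) :
    Mn (rk M) a.1 b.1 c.1 d.1 s.1 t.1 := by
  have h3 : ∀ x y z : M.E, rk N {(e x).1, (e y).1, (e z).1} = rk M {x.1, y.1, z.1} := by
    intro x y z
    have := rk_iso hM hN e he {x, y, z}
    simp only [image_insert_eq, image_singleton] at this
    exact this.symm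
  exact ⟨h3 a b c ▸ h.abc, h3 d s t ▸ h.dst, h3 s a b ▸ h.sab, h3 s c d ▸ h.scd, h3 t a c ▸ h.tac,
    h3 t b d ▸ h.tbd⟩

theorem mem_of_rk {α : Type} {M : Matroid α} {x : α} (h : 1 ≤ rk M {x}) : x ∈ M.E := by
  by_contra hx
  have h1 := rk_inter_ground M {x}
  rw [Set.singleton_inter_eq_empty.2 hx, rk_empty] at h1
  omega

/-- A finite matroid has a minor isomorphic to `M(K₄)` if and only if its rank function has a
configuration `Mn` after a contraction. -/
theorem hasMinor_iff {α : Type} {M : Matroid α} (hM : M.E.Finite) :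
    HasMinorIso M MK4 ↔ HK (rk M) M.E := by
  constructor
  · rintro ⟨M', hM', e, he⟩
    obtain ⟨C, D, hC, hD, hCD, rfl⟩ := hM'.exists_eq_contract_delete_disjoint
    have hE' : (M ／ C ＼ D).E = (M.E \ C) \ D := rfl
    have hf' : (M ／ C ＼ D).E.Finite := by
      rw [hE']
      exact hM.subset (sdiff_subset.trans sdiff_subset)
    have hw : ∀ i, w4 i ∈ MK4.E := fun i => by rw [← w4_range]; exact ⟨i, rfl⟩
    set u : Fin 6 → (M ／ C ＼ D).E := fun i => e.symm ⟨w4 i, hw i⟩ with hu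
    have heu : ∀ i, (e (u i)).1 = w4 i := by
      intro i
      simp only [hu]
      rw [e.apply_symm_apply]
    have h1 : Mn (rk (M ／ C ＼ D)) (u 0).1 (u 1).1 (u 2).1 (u 3).1 (u 4).1 (u 5).1 := by
      apply Mn.of_iso hf' MK4_finite e he
      simp only [heu]
      exact MK4_Mn
    have hu' : ∀ i, (u i).1 ∈ (M ／ C ＼ D).E := fun i => (u i).2
    have h2 : Mn (con (rk M) C) (u 0).1 (u 1).1 (u 2).1 (u 3).1 (u 4).1 (u 5).1 := by
      refine h1.congr (hu' 0) (hu' 1) (hu' 2) (hu' 3) (hu' 4) (hu' 5) ?_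
      intro X hX
      rw [← rk_con hM hC (hX.trans sdiff_subset), Matroid.delete_eq_restrict]
      exact rk_restrict hX
    exact ⟨C, hC, _, (hu' 0).1.1, _, (hu' 1).1.1, _, (hu' 2).1.1, _, (hu' 3).1.1, _, (hu' 4).1.1,
      _, (hu' 5).1.1, h2⟩
  · rintro ⟨C, hC, a, ha, b, hb, c, hc, d, hd, s, hs, t, ht, h⟩
    have hf := rf_rk hM
    have hq := hf.con C
    obtain ⟨n1, n2, n3, n4, n5, n6⟩ := h.nonloops hq
    have key : ∀ x ∈ M.E, 1 ≤ con (rk M) C {x} → x ∈ M.E \ C := by
      intro x hx h1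
      refine ⟨hx, fun hxC => ?_⟩
      have : C ∪ {x} = C := by
        apply union_eq_self_of_subset_right
        intro y hy
        rw [mem_singleton_iff.1 hy]
        exact hxC
      simp only [con, this] at h1
      omega
    set v : Fin 6 → α := ![a, b, c, d, s, t] with hv
    have hvE : ∀ i, v i ∈ M.E \ C := by
      intro i
      fin_cases i
      · exact key a ha n1
      · exact key b hb n2
      · exact key c hc n3
      · exact key d hd n4
      · exact key s hs n5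
      · exact key t ht n6
    set S : Set α := range v with hS
    have hSE : S ⊆ M.E \ C := by
      rintro _ ⟨i, rfl⟩
      exact hvE i
    have hNf : ((M ／ C) ↾ S).E.Finite := Set.finite_range v
    have hN : ∀ X ⊆ S, con (rk M) C X = rk ((M ／ C) ↾ S) X := by
      intro X hX
      rw [rk_restrict hX, rk_con hM hC (hX.trans hSE)]
    have h1 : Mn (rk ((M ／ C) ↾ S)) (v 0) (v 1) (v 2) (v 3) (v 4) (v 5) :=
      Mn.congr (S := S) h ⟨0, rfl⟩ ⟨1, rfl⟩ ⟨2, rfl⟩ ⟨3, rfl⟩ ⟨4, rfl⟩ ⟨5, rfl⟩ hN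
    obtain ⟨hinj, hpat⟩ := pattern hNf (v := v) (fun i => ⟨i, rfl⟩) h1
    refine ⟨(M ／ C) ↾ S, ⟨C, (M.E \ C) \ S, ?_⟩, iso_of_numbering hinj w4_inj rfl w4_range
      fun J => (hpat J).trans (MK4_pattern J).symm⟩
    rw [Matroid.delete_eq_restrict]
    congr 1
    rw [Matroid.contract_ground]
    ext x
    constructor
    · intro hx
      exact ⟨hSE hx, fun h => h.2 hx⟩
    · rintro ⟨h1, h2⟩
      by_contra h3
      exact h2 ⟨h1, h3⟩

end Pool.Agent.K9h62.CC
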