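import Mathlib
import Pool.Agent.K9h62.CC.HK

/-!
# Closure of the class of matroids without an `M(K₄)`-minor: everything except induction
-/

set_option autoImplicit false

namespace Pool.Agent.K9h62.CC

open Set Pool.Agent.Helper442.FE
open scoped Matroid

theorem noMK4_iff {α : Type} {M : Matroid α} :
    NoMK4 α M ↔ M.E.Finite ∧ ¬ HK (rk M) M.E := by
  constructor
  · rintro ⟨h1, h2⟩
    exact ⟨h1, fun h => h2 ((hasMinor_iff h1).2 h)⟩
  · rintro ⟨h1, h2⟩
    exact ⟨h1, fun h => h2 ((hasMinor_iff h1).1 h)⟩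

theorem HasMinorIso.of_isMinor {α β : Type} {M M' : Matroid α} {N : Matroid β} (h : M' ≤m M)
    (hN : HasMinorIso M' N) : HasMinorIso M N := by
  obtain ⟨M'', h1, h2⟩ := hN
  exact ⟨M'', h1.trans h, h2⟩

theorem restrict_isMinor {α : Type} (M : Matroid α) {A : Set α} (hA : A ⊆ M.E) : (M ↾ A) ≤m M := by
  refine ⟨∅, M.E \ A, ?_⟩
  rw [Matroid.contract_empty, Matroid.delete_eq_restrict, sdiff_sdiff_cancel_left hA]

theorem contract_isMinor' {α : Type} (M : Matroid α) (A : Set α) : (M ／ A) ≤m M :=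
  ⟨A, ∅, by simp⟩

theorem noMK4_restrict {α : Type} {M : Matroid α} (h : NoMK4 α M) {A : Set α} (hA : A ⊆ M.E) :
    NoMK4 α (M ↾ A) :=
  ⟨h.1.subset hA, fun h' => h.2 (h'.of_isMinor (restrict_isMinor M hA))⟩

theorem noMK4_contract {α : Type} {M : Matroid α} (h : NoMK4 α M) (A : Set α) :
    NoMK4 α (M ／ A) :=
  ⟨h.1.subset sdiff_subset, fun h' => h.2 (h'.of_isMinor (contract_isMinor' M A))⟩

theorem iso_symm {α β : Type} {M : Matroid α} {N : Matroid β} (h : Iso M N) : Iso N M := by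
  obtain ⟨e, he⟩ := h
  refine ⟨e.symm, fun I => ?_⟩
  rw [he (e.symm '' I), e.image_symm_image]

theorem hk_iso {α β : Type} {M : Matroid α} {N : Matroid β} (hM : M.E.Finite) (hN : N.E.Finite)
    (h : Iso M N) (hk : HK (rk M) M.E) : HK (rk N) N.E := by
  obtain ⟨e, he⟩ := h
  obtain ⟨C, hC, a, ha, b, hb, c, hc, d, hd, s, hs, t, ht, h⟩ := hk
  set φ : Set α → Set β := fun X => Subtype.val '' (e '' (Subtype.val ⁻¹' X)) with hφ
  have hr : ∀ X ⊆ M.E, rk M X = rk N (φ X) := by
    intro X hX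
    rw [hφ, ← rk_iso hM hN e he, Subtype.image_preimage_coe, inter_eq_self_of_subset_right hX]
  have hu : ∀ X Y, φ (X ∪ Y) = φ X ∪ φ Y := by
    intro X Y
    simp only [hφ, preimage_union, image_union]
  have hs1 : ∀ x : M.E, φ {x.1} = {(e x).1} := by
    intro x
    simp only [hφ]
    have : Subtype.val ⁻¹' {x.1} = ({x} : Set M.E) := by
      ext y
      simp [Subtype.ext_iff]
    rw [this, image_singleton, image_singleton]
  have h3 : ∀ x y z : M.E, con (rk M) C {x.1, y.1, z.1} =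
      con (rk N) (φ C) {(e x).1, (e y).1, (e z).1} := by
    intro x y z
    simp only [con]
    rw [hr _ (union_subset hC (by
      intro w hw
      simp only [mem_insert_iff, mem_singleton_iff] at hw
      rcases hw with rfl | rfl | rfl
      · exact x.2
      · exact y.2
      · exact z.2)), hr C hC, hu, insert_eq, hu, insert_eq, hu, hs1, hs1, hs1]
    rfl
  refine ⟨φ C, ?_, (e ⟨a, ha⟩).1, (e ⟨a, ha⟩).2, (e ⟨b, hb⟩).1, (e ⟨b, hb⟩).2, (e ⟨c, hc⟩).1,
    (e ⟨c, hc⟩).2, (e ⟨d, hd⟩).1, (e ⟨d, hd⟩).2, (e ⟨s, hs⟩).1, (e ⟨s, hs⟩).2, (e ⟨t, ht⟩).1,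
    (e ⟨t, ht⟩).2, ?_, ?_, ?_, ?_, ?_, ?_⟩
  · rintro _ ⟨x, -, rfl⟩
    exact x.2
  · rw [← h3]; exact h.abc
  · rw [← h3]; exact h.dst
  · rw [← h3]; exact h.sab
  · rw [← h3]; exact h.scd
  · rw [← h3]; exact h.tac
  · rw [← h3]; exact h.tbd

theorem noMK4_iso {α β : Type} {M : Matroid α} {N : Matroid β} (h : Iso M N) (hM : NoMK4 α M) :
    NoMK4 β N := by
  rw [noMK4_iff] at hM ⊢
  have hN : N.E.Finite := by
    obtain ⟨e, _⟩ := h
    have : Finite M.E := hM.1
    have : Finite N.E := Finite.of_equiv _ e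
    exact Set.toFinite _
  exact ⟨hN, fun hk => hM.2 (hk_iso hN hM.1 (iso_symm h) hk)⟩

set_option maxHeartbeats 4000000 in
/-- Duality. -/
theorem hk_dual {α : Type} {M : Matroid α} (hM : M.E.Finite) (h : HK (rk M✶) M.E) :
    HK (rk M) M.E := by
  obtain ⟨C, hC, a, ha, b, hb, c, hc, d, hd, s, hs, t, ht, h⟩ := h
  have hM' : M✶.E.Finite := hM
  have hq := (rf_rk hM').con C
  have hf := rf_rk hM
  set S : Set α := {a, b, c, d, s, t} with hS
  obtain ⟨n1, n2, n3, n4, n5, n6⟩ := h.nonloops hq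
  have key : ∀ x ∈ M.E, 1 ≤ con (rk M✶) C {x} → x ∈ M.E \ C := by
    intro x hx h1
    refine ⟨hx, fun hxC => ?_⟩
    have : C ∪ {x} = C := by
      apply union_eq_self_of_subset_right
      intro y hy
      rw [mem_singleton_iff.1 hy]
      exact hxC
    simp only [con, this] at h1
    omega
  have hSE : S ⊆ M.E \ C := by
    intro w hw
    simp only [hS, mem_insert_iff, mem_singleton_iff] at hw
    rcases hw with rfl | rfl | rfl | rfl | rfl | rfl
    · exact key _ ha n1
    · exact key _ hb n2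
    · exact key _ hc n3
    · exact key _ hd n4
    · exact key _ hs n5
    · exact key _ ht n6
  set D : Set α := (M.E \ C) \ S with hD
  have hDE : D ⊆ M.E := sdiff_subset.trans sdiff_subset
  have hSfin : S.Finite := Set.toFinite _
  -- the rank function of the contraction of the dual
  have main : ∀ X ⊆ S, con (rk M✶) C X = X.ncard + con (rk M) D (S \ X) - con (rk M) D S := by
    intro X hX
    have hXE : X ⊆ M.E := hX.trans (hSE.trans sdiff_subset)
    have e1 := rk_dual hM (A := C ∪ X) (union_subset hC hXE)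
    have e2 := rk_dual hM (A := C) hC
    have e3 : M.E \ (C ∪ X) = D ∪ (S \ X) := by
      ext x
      constructor
      · rintro ⟨h1, h2⟩
        by_cases hxS : x ∈ S
        · exact Or.inr ⟨hxS, fun h => h2 (Or.inr h)⟩
        · exact Or.inl ⟨⟨h1, fun h => h2 (Or.inl h)⟩, hxS⟩
      · rintro (⟨⟨h1, h2⟩, h3⟩ | ⟨h1, h2⟩)
        · exact ⟨h1, fun h => h.elim h2 fun h => h3 (hX h)⟩
        · exact ⟨(hSE h1).1, fun h => h.elim (hSE h1).2 h2⟩
    have e4 : M.E \ C = D ∪ S := by
      rw [hD, sdiff_union_self, union_eq_self_of_subset_right hSE]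
    have e5 : (C ∪ X).ncard = C.ncard + X.ncard := by
      apply ncard_union_eq
      · rw [Set.disjoint_right]
        intro x hx
        exact (hSE (hX hx)).2
      · exact hM.subset hC
      · exact hM.subset hXE
    rw [e3, e5] at e1
    rw [e4] at e2
    simp only [con]
    push_cast at e1
    omega
  have hg := hf.con D
  set g := con (rk M) D with hgdef
  have hm : ∀ {x}, x ∈ ({a, b, c, d, s, t} : Set α) → x ∈ S := fun h => h
  have sub3 : ∀ x ∈ S, ∀ y ∈ S, ∀ z ∈ S, ({x, y, z} : Set α) ⊆ S := by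
    intro x hx y hy z hz w hw
    simp only [mem_insert_iff, mem_singleton_iff] at hw
    rcases hw with rfl | rfl | rfl <;> assumption
  have haS : a ∈ S := by simp [hS]
  have hbS : b ∈ S := by simp [hS]
  have hcS : c ∈ S := by simp [hS]
  have hdS : d ∈ S := by simp [hS]
  have hsS : s ∈ S := by simp [hS]
  have htS : t ∈ S := by simp [hS]
  -- distinctness
  obtain ⟨i1, i2, i3⟩ := hq.pair_of_triple h.abc
  obtain ⟨j1, j2, j3⟩ := hq.pair_of_triple h.dst
  have nab := ne_of_pair hq i1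
  have nac := ne_of_pair hq i2
  have nbc := ne_of_pair hq i3
  have nds := ne_of_pair hq j1
  have ndt := ne_of_pair hq j2
  have nst := ne_of_pair hq j3
  have nas := ne_of_pair hq (h.as hq)
  have nbs := ne_of_pair hq (h.bs hq)
  have ndc := ne_of_pair hq (h.dc hq)
  have nat' := ne_of_pair hq (h.at' hq)
  have ndb := ne_of_pair hq (h.db hq)
  have nsc := ne_of_pair hq (h.sc hq)
  have nct := ne_of_pair hq (h.ct hq)
  have ntb := ne_of_pair hq (h.tb hq)
  have nad := ne_of_pair hq (h.ad hq)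
  have card3 : ∀ x y z : α, x ≠ y → x ≠ z → y ≠ z → ({x, y, z} : Set α).ncard = 3 :=
    fun x y z h1 h2 h3 => Set.ncard_eq_three.2 ⟨x, y, z, h1, h2, h3, rfl⟩
  have cS : S.ncard = 6 := by
    have e : S = {a, b, c} ∪ {d, s, t} := by
      rw [hS]; ext x; simp; tauto
    rw [e, ncard_union_eq _ (Set.toFinite _) (Set.toFinite _), card3 _ _ _ nab nac nbc,
      card3 _ _ _ nds ndt nst]
    rw [Set.disjoint_left]
    intro x hx hx'
    simp only [mem_insert_iff, mem_singleton_iff] at hx hx'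
    rcases hx with rfl | rfl | rfl <;> rcases hx' with h | h | h
    · exact nad h
    · exact nas h
    · exact nat' h
    · exact ndb h.symm
    · exact nbs h
    · exact ntb h.symm
    · exact ndc h.symm
    · exact nsc h.symm
    · exact nct h
  have comp : ∀ x y z u v w : α, ({x, y, z, u, v, w} : Set α) = S → x ≠ u → x ≠ v → x ≠ w →
      y ≠ u → y ≠ v → y ≠ w → z ≠ u → z ≠ v → z ≠ w → S \ {x, y, z} = {u, v, w} := by
    intro x y z u v w h h1 h2 h3 h4 h5 h6 h7 h8 h9
    rw [← h]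
    ext r
    simp only [mem_sdiff, mem_insert_iff, mem_singleton_iff]
    constructor
    · tauto
    · rintro (rfl | rfl | rfl)
      · exact ⟨by tauto, by rintro (h | h | h); exacts [h1 h.symm, h4 h.symm, h7 h.symm]⟩
      · exact ⟨by tauto, by rintro (h | h | h); exacts [h2 h.symm, h5 h.symm, h8 h.symm]⟩
      · exact ⟨by tauto, by rintro (h | h | h); exacts [h3 h.symm, h6 h.symm, h9 h.symm]⟩
  have gz : g ∅ = 0 := hg.zero
  have m1 := main {a, b, c} (sub3 a haS b hbS c hcS)
  rw [comp a b c d s t (by rw [hS]) nad nas nat' ndb.symm nbs ntb.symm ndc.symm nsc.symm nct,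
    card3 _ _ _ nab nac nbc] at m1
  have m2 := main {d, s, t} (sub3 d hdS s hsS t htS)
  rw [comp d s t a b c (by rw [hS]; ext; simp; tauto) nad.symm ndb ndc nas.symm nbs.symm nsc nat'.symm ntb
    nct.symm, card3 _ _ _ nds ndt nst] at m2
  have m3 := main {s, a, b} (sub3 s hsS a haS b hbS)
  rw [comp s a b t c d (by rw [hS]; ext; simp; tauto) nst nsc nds.symm nat' nac nad ntb.symm nbc
    ndb.symm, card3 _ _ _ nas.symm nbs.symm nab] at m3
  have m4 := main {s, c, d} (sub3 s hsS c hcS d hdS)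
  rw [comp s c d t a b (by rw [hS]; ext; simp; tauto) nst nas.symm nbs.symm nct nac.symm nbc.symm ndt
    nad.symm ndb, card3 _ _ _ nsc nds.symm ndc.symm] at m4
  have m5 := main {t, a, c} (sub3 t htS a haS c hcS)
  rw [comp t a c s b d (by rw [hS]; ext; simp; tauto) nst.symm ntb ndt.symm nas nab nad nsc.symm
    nbc.symm ndc.symm, card3 _ _ _ nat'.symm nct.symm nac] at m5
  have m6 := main {t, b, d} (sub3 t htS b hbS d hdS)
  rw [comp t b d s a c (by rw [hS]; ext; simp; tauto) nst.symm nat'.symm nct.symm nbs nab.symm nbc nds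
    nad.symm ndc, card3 _ _ _ ntb ndt.symm ndb.symm] at m6
  have m7 := main S Subset.rfl
  rw [sdiff_self, cS] at m7
  have m8 := h.all_le hq
  have m9 : 3 ≤ con (rk M✶) C S := h.abc.trans (hq.mono (sub3 a haS b hbS c hcS))
  have hbot : g ⊥ = 0 := gz
  have h1 := h.abc
  have h2 := h.dst
  have h3 := h.sab
  have h4 := h.scd
  have h5 := h.tac
  have h6 := h.tbd
  have m8' : con (rk M✶) C S ≤ 3 := m8
  refine ⟨D, hDE, a, ha, b, hb, c, hc, d, hd, t, ht, s, hs, ?_, ?_, ?_, ?_, ?_, ?_⟩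
  all_goals rw [← hgdef]
  · push_cast at m1 m2 m7
    omega
  · rw [show ({d, t, s} : Set α) = {d, s, t} by ext; simp; tauto]
    push_cast at m1 m2 m7
    omega
  · push_cast at m4 m7
    omega
  · push_cast at m3 m7
    omega
  · rw [show ({s, a, c} : Set α) = {s, a, c} from rfl]
    push_cast at m6 m7
    omega
  · push_cast at m5 m7
    omega

theorem noMK4_dual {α : Type} {M : Matroid α} (h : NoMK4 α M) : NoMK4 α M✶ := by
  rw [noMK4_iff] at h ⊢
  exact ⟨h.1, fun hk => h.2 (hk_dual h.1 hk)⟩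

end Pool.Agent.K9h62.CC
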