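import Mathlib
import Pool.Agent.K9h62.CC.Close

/-!
# Closure of the class of matroids without an `M(K₄)`-minor: direct sum and truncation
-/

set_option autoImplicit false

namespace Pool.Agent.K9h62.CC

open Set Pool.Agent.Helper442.FE
open scoped Matroid

/-- If a rank function splits then every line of an `M(K₄)` lies on one side, hence so does the
whole configuration. -/
theorem split {α : Type} {q : Set α → ℤ} (hq : RF q) {P : α → Prop}
    (hsplit : ∀ X, q X = q {x ∈ X | P x} + q {x ∈ X | ¬ P x}) {a b c d s t : α}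
    (h : Mn q a b c d s t) :
    (P a ∧ P b ∧ P c ∧ P d ∧ P s ∧ P t) ∨ (¬ P a ∧ ¬ P b ∧ ¬ P c ∧ ¬ P d ∧ ¬ P s ∧ ¬ P t) := by
  have aux : ∀ x y z : α, q {x, y, z} ≤ 2 → 2 ≤ q {x, z} → 2 ≤ q {y, z} → P x → ¬ P y → False := by
    intro x y z h1 h3 h4 hx hy
    obtain ⟨n1, -⟩ := hq.single_of_pair h3
    obtain ⟨n2, -⟩ := hq.single_of_pair h4
    have hs := hsplit {x, y, z}
    by_cases hz : P z
    · have e1 : q {x, z} ≤ q {w ∈ ({x, y, z} : Set α) | P w} := hq.mono (by
        rintro w (rfl | hw)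
        · exact ⟨by simp, hx⟩
        · rw [mem_singleton_iff.1 hw]
          exact ⟨by simp, hz⟩)
      have e2 : q {y} ≤ q {w ∈ ({x, y, z} : Set α) | ¬ P w} := hq.mono (by
        intro w hw
        rw [mem_singleton_iff.1 hw]
        exact ⟨by simp, hy⟩)
      omega
    · have e1 : q {y, z} ≤ q {w ∈ ({x, y, z} : Set α) | ¬ P w} := hq.mono (by
        rintro w (rfl | hw)
        · exact ⟨by simp, hy⟩
        · rw [mem_singleton_iff.1 hw]
          exact ⟨by simp, hz⟩)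
      have e2 : q {x} ≤ q {w ∈ ({x, y, z} : Set α) | P w} := hq.mono (by
        intro w hw
        rw [mem_singleton_iff.1 hw]
        exact ⟨by simp, hx⟩)
      omega
  have two : ∀ x y z : α, q {x, y, z} ≤ 2 → 2 ≤ q {x, z} → 2 ≤ q {y, z} → (P x ↔ P y) := by
    intro x y z h1 h2 h3
    constructor
    · intro hx
      by_contra hy
      exact aux x y z h1 h2 h3 hx hy
    · intro hy
      by_contra hx
      refine aux y x z ?_ h3 h2 hy hx
      rwa [Set.insert_comm]
  have key : ∀ x y z : α, q {x, y, z} ≤ 2 → 2 ≤ q {x, y} → 2 ≤ q {x, z} → 2 ≤ q {y, z} →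
      ((P x ↔ P y) ∧ (P x ↔ P z)) := by
    intro x y z h1 h2 h3 h4
    refine ⟨two x y z h1 h3 h4, two x z y ?_ h2 ?_⟩
    · rwa [show ({x, z, y} : Set α) = {x, y, z} by rw [Set.pair_comm z y]]
    · rwa [Set.pair_comm]
  obtain ⟨p1, p2, p3⟩ := hq.pair_of_triple h.abc
  obtain ⟨r1, r2, r3⟩ := hq.pair_of_triple h.dst
  have comm : ∀ {x y : α}, 2 ≤ q {x, y} → 2 ≤ q {y, x} := by
    intro x y h
    rwa [Set.pair_comm]
  have k1 := key s a b h.sab (comm (h.as hq)) (comm (h.bs hq)) p1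
  have k2 := key s c d h.scd (h.sc hq) (comm r1) (comm (h.dc hq))
  have k3 := key t a c h.tac (comm (h.at' hq)) (comm (h.ct hq)) p2
  by_cases h0 : P s
  · have ha := k1.1.1 h0
    exact Or.inl ⟨ha, k1.2.1 h0, k2.1.1 h0, k2.2.1 h0, h0, k3.1.2 ha⟩
  · have ha := mt k1.1.2 h0
    exact Or.inr ⟨ha, mt k1.2.2 h0, mt k2.1.2 h0, mt k2.2.2 h0, h0, mt k3.1.1 ha⟩

theorem hk_sum {α β : Type} {M : Matroid α} {N : Matroid β} (hM : M.E.Finite) (hN : N.E.Finite)
    (h : HK (rk (M.sum N)) (M.sum N).E) : HK (rk M) M.E ∨ HK (rk N) N.E := by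
  obtain ⟨C, hC, a, ha, b, hb, c, hc, d, hd, s, hs, t, ht, h⟩ := h
  have hE : (M.sum N).E.Finite := by
    rw [Matroid.sum_ground]
    exact (hM.image _).union (hN.image _)
  have hq := (rf_rk hE).con C
  have hin : ∀ X, con (rk (M.sum N)) C X =
      con (rk M) (Sum.inl ⁻¹' C) (Sum.inl ⁻¹' X) + con (rk N) (Sum.inr ⁻¹' C) (Sum.inr ⁻¹' X) := by
    intro X
    simp only [con]
    rw [rk_sum hM hN, rk_sum hM hN, preimage_union, preimage_union]
    omega
  have z1 : con (rk M) (Sum.inl ⁻¹' C) ∅ = 0 := by simp [con]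
  have z2 : con (rk N) (Sum.inr ⁻¹' C) ∅ = 0 := by simp [con]
  have hmE : ∀ x : α, Sum.inl x ∈ (M.sum N).E → x ∈ M.E := by
    intro x hx
    rw [Matroid.sum_ground] at hx
    simpa using hx
  have hnE : ∀ x : β, Sum.inr x ∈ (M.sum N).E → x ∈ N.E := by
    intro x hx
    rw [Matroid.sum_ground] at hx
    simpa using hx
  have hs := split hq (P := fun x => x.isLeft = true) (by
    intro X
    rw [hin X, hin {x ∈ X | _}, hin {x ∈ X | ¬ _}]
    have e1 : Sum.inl ⁻¹' {x ∈ X | x.isLeft = true} = (Sum.inl ⁻¹' X : Set α) := by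
      ext x; simp
    have e2 : Sum.inr ⁻¹' {x ∈ X | x.isLeft = true} = (∅ : Set β) := by
      ext x; simp
    have e3 : Sum.inl ⁻¹' {x ∈ X | ¬ x.isLeft = true} = (∅ : Set α) := by
      ext x; simp
    have e4 : Sum.inr ⁻¹' {x ∈ X | ¬ x.isLeft = true} = (Sum.inr ⁻¹' X : Set β) := by
      ext x; simp
    rw [e1, e2, e3, e4, z1, z2]
    omega) h
  rcases hs with ⟨q1, q2, q3, q4, q5, q6⟩ | ⟨q1, q2, q3, q4, q5, q6⟩
  · left
    rcases a with a | a <;> [skip; simp at q1]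
    rcases b with b | b <;> [skip; simp at q2]
    rcases c with c | c <;> [skip; simp at q3]
    rcases d with d | d <;> [skip; simp at q4]
    rcases s with s | s <;> [skip; simp at q5]
    rcases t with t | t <;> [skip; simp at q6]
    have h3 : ∀ x y z : α, con (rk (M.sum N)) C {Sum.inl x, Sum.inl y, Sum.inl z} =
        con (rk M) (Sum.inl ⁻¹' C) {x, y, z} := by
      intro x y z
      rw [hin]
      have e1 : Sum.inl ⁻¹' ({Sum.inl x, Sum.inl y, Sum.inl z} : Set (α ⊕ β)) = ({x, y, z} : Set α) := by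
        ext w; simp
      have e2 : Sum.inr ⁻¹' {Sum.inl x, Sum.inl y, Sum.inl z} = (∅ : Set β) := by
        ext w; simp
      rw [e1, e2, z2]
      omega
    exact ⟨Sum.inl ⁻¹' C, fun x hx => hmE x (hC hx), a, hmE a ha, b, hmE b hb, c, hmE c hc, d,
      hmE d hd, s, hmE s ‹_›, t, hmE t ht, h3 a b c ▸ h.abc, h3 d s t ▸ h.dst, h3 s a b ▸ h.sab,
      h3 s c d ▸ h.scd, h3 t a c ▸ h.tac, h3 t b d ▸ h.tbd⟩
  · right
    rcases a with a | a <;> [simp at q1; skip]
    rcases b with b | b <;> [simp at q2; skip]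
    rcases c with c | c <;> [simp at q3; skip]
    rcases d with d | d <;> [simp at q4; skip]
    rcases s with s | s <;> [simp at q5; skip]
    rcases t with t | t <;> [simp at q6; skip]
    have h3 : ∀ x y z : β, con (rk (M.sum N)) C {Sum.inr x, Sum.inr y, Sum.inr z} =
        con (rk N) (Sum.inr ⁻¹' C) {x, y, z} := by
      intro x y z
      rw [hin]
      have e1 : Sum.inr ⁻¹' ({Sum.inr x, Sum.inr y, Sum.inr z} : Set (α ⊕ β)) = ({x, y, z} : Set β) := by
        ext w; simp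
      have e2 : Sum.inl ⁻¹' {Sum.inr x, Sum.inr y, Sum.inr z} = (∅ : Set α) := by
        ext w; simp
      rw [e1, e2, z1]
      omega
    exact ⟨Sum.inr ⁻¹' C, fun x hx => hnE x (hC hx), a, hnE a ha, b, hnE b hb, c, hnE c hc, d,
      hnE d hd, s, hnE s ‹_›, t, hnE t ht, h3 a b c ▸ h.abc, h3 d s t ▸ h.dst, h3 s a b ▸ h.sab,
      h3 s c d ▸ h.scd, h3 t a c ▸ h.tac, h3 t b d ▸ h.tbd⟩

theorem noMK4_sum {α β : Type} {M : Matroid α} {N : Matroid β} (hM : NoMK4 α M)
    (hN : NoMK4 β N) : NoMK4 (α ⊕ β) (M.sum N) := by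
  rw [noMK4_iff] at *
  refine ⟨?_, fun h => (hk_sum hM.1 hN.1 h).elim hM.2 hN.2⟩
  rw [Matroid.sum_ground]
  exact (hM.1.image _).union (hN.1.image _)

theorem noMK4_truncate {α : Type} {M T : Matroid α} {k : ℕ} (hM : NoMK4 α M)
    (hT : IsTruncation M k T) : NoMK4 α T := by
  rw [noMK4_iff] at *
  have hTE : T.E = M.E := hT.1
  refine ⟨by rw [hTE]; exact hM.1, fun h => hM.2 ?_⟩
  rw [hTE] at h
  obtain ⟨C, hC, a, ha, b, hb, c, hc, d, hd, s, hs, t, ht, h⟩ := h
  have hr := rk_truncation hM.1 hT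
  have hf := rf_rk hM.1
  have hk : rk M C + 3 ≤ k := by
    have h1 := h.abc
    simp only [con, hr] at h1
    have h2 := hf.mono (A := C) (B := C ∪ {a, b, c}) subset_union_left
    omega
  have up : ∀ X : Set α, 3 ≤ con (rk T) C X → 3 ≤ con (rk M) C X := by
    intro X hX
    simp only [con, hr] at hX ⊢
    omega
  have down : ∀ X : Set α, con (rk T) C X ≤ 2 → con (rk M) C X ≤ 2 := by
    intro X hX
    simp only [con, hr] at hX ⊢
    omega
  exact ⟨C, hC, a, ha, b, hb, c, hc, d, hd, s, hs, t, ht, up _ h.abc, up _ h.dst, down _ h.sab,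
    down _ h.scd, down _ h.tac, down _ h.tbd⟩

end Pool.Agent.K9h62.CC
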