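import Mathlib
import Pool.Agent.Helper442.FE.Link
import Pool.Agent.K9h62.CC.Close2

/-!
# Closure of the class of matroids without an `M(K₄)`-minor: bipartite induction
-/

set_option autoImplicit false

namespace Pool.Agent.K9h62.CC

open Set Pool.Agent.Helper442.FE
open scoped Matroid

variable {α β : Type}

/-- The matching map: elements of `β` are matched to themselves, elements `a` of `α` to `f a`. -/
def mf (f : α → β) : β ⊕ α → β := Sum.elim id f

@[simp] theorem mf_inl (f : α → β) (b : β) : mf f (Sum.inl b) = b := rfl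
@[simp] theorem mf_inr (f : α → β) (a : α) : mf f (Sum.inr a) = f a := rfl

/-- `X` is matched into an independent set of `M`. -/
def Match (M : Matroid β) (Γ : α → Set β) (X : Set (β ⊕ α)) : Prop :=
  ∃ f : α → β, InjOn (mf f) X ∧ (∀ a, Sum.inr a ∈ X → f a ∈ Γ a) ∧ M.Indep (mf f '' X)

/-- The directed graph of the matching. -/
def bg (Γ : α → Set β) (u v : β ⊕ α) : Prop := ∃ a b, u = Sum.inr a ∧ v = Sum.inl b ∧ b ∈ Γ a

theorem match_of_linked [Nonempty β] {M : Matroid β} {Γ : α → Set β} {X : Set (β ⊕ α)}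
    (h : ∃ Y, (M.sum (Matroid.emptyOn α)).Indep Y ∧ Linked (bg Γ) X Y) : Match M Γ X := by
  classical
  obtain ⟨Y, hY, P, hP1, hP2, hP3, hP4⟩ := h
  rw [Matroid.sum_indep_iff, Matroid.emptyOn_indep_iff] at hY
  have key : ∀ p ∈ P, ∃ b, Sum.inl b ∈ Y ∧ p.getLast? = some (Sum.inl b) ∧
      ((p = [Sum.inl b]) ∨ ∃ a, p = [Sum.inr a, Sum.inl b] ∧ b ∈ Γ a) := by
    intro p hp
    obtain ⟨hne, hnd, hch⟩ := hP1 p hp
    have hlast : p.getLast hne ∈ Y := by
      rw [← hP4]
      exact ⟨p, hp, List.getLast?_eq_getLast_of_ne_nil hne⟩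
    obtain ⟨b, hb⟩ : ∃ b, p.getLast hne = Sum.inl b := by
      rcases h : p.getLast hne with b | a
      · exact ⟨b, rfl⟩
      · rw [h] at hlast
        have : a ∈ (Sum.inr ⁻¹' Y : Set α) := hlast
        rw [hY.2] at this
        exact this.elim
    refine ⟨b, hb ▸ hlast, by rw [List.getLast?_eq_getLast_of_ne_nil hne, hb], ?_⟩
    rcases p with _ | ⟨x, _ | ⟨y, l⟩⟩
    · exact absurd rfl hne
    · left
      simpa using hb
    · right
      rw [List.isChain_cons_cons] at hch
      obtain ⟨⟨a, b', rfl, rfl, hab⟩, hch⟩ := hch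
      rcases l with _ | ⟨z, l⟩
      · have : b' = b := by simpa using hb
        subst this
        exact ⟨a, rfl, hab⟩
      · exfalso
        rw [List.isChain_cons_cons] at hch
        obtain ⟨a, b, h, -⟩ := hch.1
        cases h
  -- the matching
  have hf : ∀ a : α, ∃ b : β, Sum.inr a ∈ X → [Sum.inr a, Sum.inl b] ∈ P ∧ b ∈ Γ a ∧
      Sum.inl b ∈ Y := by
    intro a
    by_cases ha : Sum.inr a ∈ X
    · have ha' := ha
      rw [← hP3] at ha'
      obtain ⟨p, hp, hpa⟩ := ha'
      obtain ⟨b, hbY, -, rfl | ⟨a', rfl, hab⟩⟩ := key p hp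
      · simp at hpa
      · have : a' = a := by simpa using hpa
        subst this
        exact ⟨b, fun _ => ⟨hp, hab, hbY⟩⟩
    · exact ⟨Classical.arbitrary β, fun h => absurd h ha⟩
  choose f hf using hf
  have hinl : ∀ b : β, Sum.inl b ∈ X → [Sum.inl b] ∈ P ∧ Sum.inl b ∈ Y := by
    intro b hb
    rw [← hP3] at hb
    obtain ⟨p, hp, hpa⟩ := hb
    obtain ⟨b', hbY, -, rfl | ⟨a', rfl, hab⟩⟩ := key p hp
    · have : b' = b := by simpa using hpa
      subst this
      exact ⟨hp, hbY⟩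
    · simp at hpa
  refine ⟨f, ?_, fun a ha => (hf a ha).2.1, ?_⟩
  · rintro (b | a) hx (b' | a') hx' h
    · simp only [mf_inl] at h
      rw [h]
    · simp only [mf_inl, mf_inr] at h
      subst h
      exfalso
      refine hP2 _ (hinl _ hx).1 _ (hf _ hx').1 (by simp) (a := Sum.inl (f a')) ?_ ?_ <;> simp
    · simp only [mf_inl, mf_inr] at h
      subst h
      exfalso
      refine hP2 _ (hinl _ hx').1 _ (hf _ hx).1 (by simp) (a := Sum.inl (f a)) ?_ ?_ <;> simp
    · simp only [mf_inr] at h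
      by_contra hne
      refine hP2 _ (hf _ hx).1 _ (hf _ hx').1 ?_ (a := Sum.inl (f a)) ?_ ?_
      · intro h'
        apply hne
        simp only [List.cons.injEq] at h'
        exact h'.1
      · simp
      · simp [h]
  · refine hY.1.subset ?_
    rintro _ ⟨b | a, hx, rfl⟩
    · exact (hinl b hx).2
    · exact (hf a hx).2.2

theorem linked_of_match {M : Matroid β} {Γ : α → Set β} {X : Set (β ⊕ α)} (h : Match M Γ X) :
    ∃ Y, (M.sum (Matroid.emptyOn α)).Indep Y ∧ Linked (bg Γ) X Y := by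
  classical
  obtain ⟨f, hinj, hΓ, hI⟩ := h
  refine ⟨Sum.inl '' (mf f '' X), ?_, ?_⟩
  · rw [Matroid.sum_indep_iff, Matroid.emptyOn_indep_iff]
    refine ⟨by rwa [preimage_image_eq _ Sum.inl_injective], ?_⟩
    ext x
    simp
  set pt : β ⊕ α → List (β ⊕ α) := Sum.elim (fun b => [Sum.inl b])
    (fun a => [Sum.inr a, Sum.inl (f a)]) with hpt
  have hlast : ∀ x, (pt x).getLast? = some (Sum.inl (mf f x)) := by
    rintro (b | a) <;> simp [hpt]
  have hhead : ∀ x, (pt x).head? = some x := by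
    rintro (b | a) <;> simp [hpt]
  refine ⟨pt '' X, ?_, ?_, ?_, ?_⟩
  · rintro _ ⟨b | a, hx, rfl⟩
    · refine ⟨by simp [hpt], by simp [hpt], by simp [hpt]⟩
    · refine ⟨by simp [hpt], by simp [hpt], ?_⟩
      simp only [hpt, Sum.elim_inr, List.isChain_cons_cons, List.isChain_singleton, and_true]
      exact ⟨a, f a, rfl, rfl, hΓ a hx⟩
  · rintro _ ⟨x, hx, rfl⟩ _ ⟨y, hy, rfl⟩ hne
    have hxy : x ≠ y := by
      rintro rfl
      exact hne rfl
    have hm : mf f x ≠ mf f y := fun h => hxy (hinj hx hy h)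
    rcases x with b | a <;> rcases y with b' | a' <;>
      simp only [hpt, Sum.elim_inl, Sum.elim_inr, List.disjoint_cons_right, List.mem_cons,
        List.not_mem_nil, or_false, Sum.inl.injEq, Sum.inr.injEq, reduceCtorEq, false_or,
        List.disjoint_nil_right, and_true, not_false_eq_true, true_and] <;>
      simp only [mf_inl, mf_inr] at hm
    · exact fun h => hm h.symm
    · exact fun h => hm h.symm
    · exact fun h => hm h.symm
    · exact ⟨fun h => hxy (by rw [h]), fun h => hm h.symm⟩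
  · ext x
    constructor
    · rintro ⟨_, ⟨y, hy, rfl⟩, h⟩
      rw [hhead] at h
      rwa [← Option.some_injective _ h]
    · intro hx
      exact ⟨_, ⟨x, hx, rfl⟩, hhead x⟩
  · ext x
    constructor
    · rintro ⟨_, ⟨y, hy, rfl⟩, h⟩
      rw [hlast] at h
      exact ⟨mf f y, ⟨y, hy, rfl⟩, Option.some_injective _ h⟩
    · rintro ⟨_, ⟨y, hy, rfl⟩, rfl⟩
      exact ⟨_, ⟨y, hy, rfl⟩, hlast y⟩

end Pool.Agent.K9h62.CC
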