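import Mathlib
import Pool.Agent.K9h62.CC.Bip

/-!
# Closure of the class of matroids without an `M(K₄)`-minor: bipartite induction, continued
-/

set_option autoImplicit false

namespace Pool.Agent.K9h62.CC

open Set Pool.Agent.Helper442.FE
open scoped Matroid

variable {α β : Type} [Finite α] [Finite β]

/-- The matroid on `β ⊕ α` whose independent sets are the sets that can be matched into an
independent set of `M`. -/
theorem exists_bip [Nonempty β] (M : Matroid β) (Γ : α → Set β) :
    ∃ Mp : Matroid (β ⊕ α), Mp.E = Sum.inl '' M.E ∪ range Sum.inr ∧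
      ∀ X, Mp.Indep X ↔ Match M Γ X := by
  obtain ⟨N, hNE, hN⟩ := exists_induced (bg Γ) (M.sum (Matroid.emptyOn α))
    (Sum.inl '' M.E ∪ range Sum.inr : Set (β ⊕ α))
  refine ⟨N, hNE, fun X => ?_⟩
  rw [hN]
  constructor
  · exact fun h => match_of_linked h.2
  · intro h
    refine ⟨?_, linked_of_match h⟩
    obtain ⟨f, -, -, hI⟩ := h
    rintro (b | a) hx
    · left
      exact ⟨b, hI.subset_ground ⟨_, hx, rfl⟩, rfl⟩
    · right
      exact ⟨a, rfl⟩

/-- If adding an element raises the rank then it can be added to a basis. -/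
theorem insert_indep_of_rk {γ : Type} {N : Matroid γ} (hN : N.E.Finite) {I X : Set γ} {e : γ}
    (hI : N.IsBasis' I X) (he : rk N X + 1 ≤ rk N (insert e X)) :
    e ∉ I ∧ N.Indep (insert e I) := by
  have hf := rf_rk hN
  have h1 := rk_eq_of_isBasis' hN hI
  have h2 := rk_indep hN hI.indep
  have h3 := hf.sm (U := insert e X) (I := I) (A := insert e I) (B := X)
    (by intro x; simp only [mem_insert_iff, mem_union]; tauto)
    (by intro x hx; exact ⟨Or.inr hx, hI.subset hx⟩)
  have heI : e ∉ I := by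
    intro h
    have : insert e X = X := insert_eq_of_mem (hI.subset h)
    rw [this] at he
    omega
  have heE : e ∈ N.E := by
    by_contra h
    have h4 := rk_inter_ground N (insert e X)
    rw [insert_inter_of_notMem h, rk_inter_ground] at h4
    omega
  have hIfin : I.Finite := hN.subset hI.indep.subset_ground
  refine ⟨heI, (indep_iff_rk hN (insert_subset heE hI.indep.subset_ground)).2 ?_⟩
  rw [ncard_insert_of_notMem heI hIfin]
  push_cast
  omega

/-- If an element can be added to a basis then it raises the rank. -/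
theorem rk_insert_of_indep {γ : Type} {N : Matroid γ} (hN : N.E.Finite) {I X : Set γ} {e : γ}
    (hI : N.IsBasis' I X) (heI : e ∉ I) (he : N.Indep (insert e I)) :
    rk N X + 1 ≤ rk N (insert e X) := by
  have hf := rf_rk hN
  have h1 := rk_eq_of_isBasis' hN hI
  have h2 := rk_indep hN he
  rw [ncard_insert_of_notMem heI (hN.subset hI.indep.subset_ground)] at h2
  have h3 := hf.mono (insert_subset_insert hI.subset : insert e I ⊆ insert e X)
  push_cast at h2
  omega

theorem bip_free [Nonempty β] {M : Matroid β} {Γ : α → Set β} {Mp : Matroid (β ⊕ α)}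
    (hE : Mp.E = Sum.inl '' M.E ∪ range Sum.inr) (hMp : ∀ X, Mp.Indep X ↔ Match M Γ X)
    {a : α} {E' : Set (β ⊕ α)} (hE' : Sum.inl '' M.E ⊆ E') (ha : Sum.inr a ∉ E') :
    Fr (rk Mp) E' (Sum.inl '' (Γ a ∩ M.E)) (Sum.inr a) := by
  classical
  have hfin : Mp.E.Finite := Set.toFinite _
  refine ⟨(image_mono inter_subset_right).trans hE', ?_, ?_⟩
  · intro X hX hg
    by_contra hcon
    obtain ⟨I, hI⟩ := Mp.exists_isBasis' X
    obtain ⟨haI, hind⟩ := insert_indep_of_rk hfin hI (e := Sum.inr a) (by omega)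
    obtain ⟨f, hinj, hΓ, hM⟩ := (hMp _).1 hind
    have hb : f a ∈ Γ a := hΓ a (mem_insert _ _)
    have hbM : f a ∈ M.E := hM.subset_ground ⟨Sum.inr a, mem_insert _ _, rfl⟩
    have hnot : f a ∉ mf f '' I := by
      rintro ⟨x, hx, hxa⟩
      have := hinj (Or.inr hx) (mem_insert (Sum.inr a) I) (by rw [hxa]; rfl)
      rw [this] at hx
      exact haI hx
    have hgI : Sum.inl (f a) ∉ I := fun h => hnot ⟨_, h, rfl⟩
    have hind2 : Mp.Indep (insert (Sum.inl (f a)) I) := by
      refine (hMp _).2 ⟨f, ?_, ?_, ?_⟩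
      · rw [injOn_insert hgI]
        exact ⟨hinj.mono (subset_insert _ _), hnot⟩
      · rintro a' (h | h)
        · cases h
        · exact hΓ a' (Or.inr h)
      · rw [image_insert_eq] at hM ⊢
        exact hM
    have h1 := rk_insert_of_indep hfin hI hgI hind2
    have h2 := hg (Sum.inl (f a)) ⟨f a, ⟨hb, hbM⟩, rfl⟩
    omega
  · rintro X hX ⟨_, ⟨b, ⟨hb, hbM⟩, rfl⟩, hg⟩
    obtain ⟨I, hI⟩ := Mp.exists_isBasis' X
    obtain ⟨hgI, hind⟩ := insert_indep_of_rk hfin hI hg
    obtain ⟨f, hinj, hΓ, hM⟩ := (hMp _).1 hind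
    have haI : Sum.inr a ∉ I := fun h => ha (hX (hI.subset h))
    set f' : α → β := Function.update f a b with hf'
    have hne : ∀ a', Sum.inr a' ∈ I → a' ≠ a := by
      rintro a' h rfl
      exact haI h
    have hff' : EqOn (mf f') (mf f) I := by
      rintro (b' | a') h
      · rfl
      · simp only [mf_inr, hf']
        rw [Function.update_of_ne (hne a' h)]
    have hfa : mf f' (Sum.inr a) = b := by
      simp only [mf_inr, hf', Function.update_self]
    rw [injOn_insert hgI] at hinj
    have himg : mf f' '' I = mf f '' I := hff'.image_eq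
    refine rk_insert_of_indep hfin hI haI ((hMp _).2 ⟨f', ?_, ?_, ?_⟩)
    · rw [injOn_insert haI, hfa, himg]
      exact ⟨hinj.1.congr hff'.symm, hinj.2⟩
    · rintro a' (h | h)
      · cases h
        simp only [hf', Function.update_self]
        exact hb
      · simp only [hf']
        rw [Function.update_of_ne (hne a' h)]
        exact hΓ a' (Or.inr h)
    · rw [image_insert_eq] at hM ⊢
      rw [hfa, himg]
      exact hM

theorem bip_rk_inl [Nonempty β] {M : Matroid β} {Γ : α → Set β} {Mp : Matroid (β ⊕ α)}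
    (hMp : ∀ X, Mp.Indep X ↔ Match M Γ X) (X : Set β) : rk Mp (Sum.inl '' X) = rk M X := by
  have hfin : Mp.E.Finite := Set.toFinite _
  have hfin' : M.E.Finite := Set.toFinite _
  have hind : ∀ I : Set β, Mp.Indep (Sum.inl '' I) ↔ M.Indep I := by
    intro I
    rw [hMp]
    have himg : ∀ f : α → β, mf f '' (Sum.inl '' I) = I := by
      intro f
      rw [← image_comp]
      have : (mf f ∘ Sum.inl : β → β) = id := rfl
      rw [this, image_id]
    constructor
    · rintro ⟨f, -, -, h⟩
      rwa [himg] at h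
    · intro h
      refine ⟨fun _ => Classical.arbitrary β, ?_, ?_, ?_⟩
      · rintro _ ⟨x, -, rfl⟩ _ ⟨y, -, rfl⟩ h
        simp only [mf_inl] at h
        rw [h]
      · rintro a ⟨x, -, h⟩
        cases h
      · rwa [himg]
  apply le_antisymm
  · obtain ⟨I, hI⟩ := Mp.exists_isBasis' (Sum.inl '' X)
    obtain ⟨J, hJ, hJI⟩ := subset_image_iff.1 hI.subset
    rw [rk_eq_of_isBasis' hfin hI, ← hJI, ncard_image_of_injective _ Sum.inl_injective]
    have h1 : M.Indep J := (hind J).1 (hJI ▸ hI.indep)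
    rw [← rk_indep hfin' h1]
    exact rk_mono hfin' hJ
  · obtain ⟨I, hI⟩ := M.exists_isBasis' X
    rw [rk_eq_of_isBasis' hfin' hI, ← ncard_image_of_injective I (Sum.inl_injective (β := α)),
      ← rk_indep hfin ((hind I).2 hI.indep)]
    exact rk_mono hfin (image_mono hI.subset)

theorem bip_hk [Nonempty β] {M : Matroid β} {Γ : α → Set β} {Mp : Matroid (β ⊕ α)}
    (hE : Mp.E = Sum.inl '' M.E ∪ range Sum.inr) (hMp : ∀ X, Mp.Indep X ↔ Match M Γ X)
    (h : HK (rk Mp) Mp.E) : HK (rk M) M.E := by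
  classical
  have hfin : Mp.E.Finite := Set.toFinite _
  have hf := rf_rk hfin
  have step : ∀ J : Set α, J.Finite → HK (rk Mp) (Sum.inl '' M.E ∪ Sum.inr '' J) →
      HK (rk Mp) (Sum.inl '' M.E) := by
    intro J hJ
    induction J, hJ using Set.Finite.induction_on with
    | empty =>
      intro h
      rwa [image_empty, union_empty] at h
    | @insert a J ha _ ih =>
      intro h
      apply ih
      have h1 : Sum.inr a ∉ (Sum.inl '' M.E ∪ Sum.inr '' J : Set (β ⊕ α)) := by
        rintro (⟨x, -, hx⟩ | ⟨x, hx, hxa⟩)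
        · cases hx
        · cases hxa
          exact ha hx
      rw [image_insert_eq, union_insert] at h
      exact h.of_free hf (bip_free hE hMp subset_union_left h1) h1
  have h1 : HK (rk Mp) (Sum.inl '' M.E) := by
    apply step univ (Set.toFinite _)
    rwa [image_univ, ← hE]
  obtain ⟨C, hC, _, ⟨a, ha, rfl⟩, _, ⟨b, hb, rfl⟩, _, ⟨c, hc, rfl⟩, _, ⟨d, hd, rfl⟩, _,
    ⟨s, hs, rfl⟩, _, ⟨t, ht, rfl⟩, h2⟩ := h1
  obtain ⟨D, hD, rfl⟩ := subset_image_iff.1 hC
  have h3 : ∀ x y z : β, con (rk Mp) (Sum.inl '' D) {Sum.inl x, Sum.inl y, Sum.inl z} =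
      con (rk M) D {x, y, z} := by
    intro x y z
    simp only [con]
    have : (Sum.inl '' D ∪ {Sum.inl x, Sum.inl y, Sum.inl z} : Set (β ⊕ α)) =
        Sum.inl '' (D ∪ {x, y, z}) := by
      rw [image_union, image_insert_eq, image_insert_eq, image_singleton]
    rw [this, bip_rk_inl hMp, bip_rk_inl hMp]
  exact ⟨D, hD, a, ha, b, hb, c, hc, d, hd, s, hs, t, ht, h3 a b c ▸ h2.abc, h3 d s t ▸ h2.dst,
    h3 s a b ▸ h2.sab, h3 s c d ▸ h2.scd, h3 t a c ▸ h2.tac, h3 t b d ▸ h2.tbd⟩

end Pool.Agent.K9h62.CC
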