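import Mathlib
import Pool.Agent.K9h62.CC.Bip2

/-!
# Closure of the class of matroids without an `M(K₄)`-minor: induction by a directed graph
-/

set_option autoImplicit false

namespace Pool.Agent.K9h62.CC

open Set Pool.Agent.Helper442.FE
open scoped Matroid

variable {τ : Type} [Finite τ]

/-- The neighbours of the contracted element of the vertex `v`: the element `v` of `M₀`, the free
copy of `v` and the free copies of the out-neighbours of `v`. -/
def nb (G : τ → τ → Prop) (v : τ) : Set (τ ⊕ τ) :=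
  {x | x = Sum.inl v ∨ x = Sum.inr v ∨ ∃ w, x = Sum.inr w ∧ G v w}

/-- The copy of `v` in the ground set. -/
def io (v : τ) : (τ ⊕ τ) ⊕ τ := Sum.inl (Sum.inr v)

omit [Finite τ] in
theorem io_inj : Function.Injective (io : τ → (τ ⊕ τ) ⊕ τ) := by
  intro x y h
  simpa [io] using h

/-- Linking in a directed graph as matching. -/
theorem lk_iff_match (G : τ → τ → Prop) (M₀ : Matroid τ) (X : Set τ) :
    Lk G M₀ X ↔ Match (M₀.sum (Matroid.freeOn univ)) (nb G) (io '' X ∪ range Sum.inr) := by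
  classical
  constructor
  · rintro ⟨Y, hY, hL⟩
    obtain ⟨⟨m, hm1, hm2, hm3⟩, j, hj1, hj2⟩ := map_of_linked hL
    have c1 : X.ncard ≤ Y.ncard := Set.ncard_le_ncard_of_injOn j hj2 hj1 (Set.toFinite _)
    have c2 : (m '' Xᶜ).ncard = (Xᶜ).ncard := hm1.ncard_image
    have c3 : X.ncard + (Xᶜ).ncard = Nat.card τ := Set.ncard_add_ncard_compl _
    have c4 : Y.ncard + (Yᶜ).ncard = Nat.card τ := Set.ncard_add_ncard_compl _
    have hsub : m '' Xᶜ ⊆ Yᶜ := by
      rintro _ ⟨t, ht, rfl⟩
      exact hm3 t ht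
    have heq : m '' Xᶜ = Yᶜ := Set.eq_of_subset_of_ncard_le hsub (by omega) (Set.toFinite _)
    have hpre : ∀ v, ∃ t, v ∉ Y → t ∉ X ∧ m t = v := by
      intro v
      by_cases hv : v ∈ Y
      · exact ⟨v, fun h => absurd hv h⟩
      · have : v ∈ m '' Xᶜ := by rw [heq]; exact hv
        obtain ⟨t, ht, htv⟩ := this
        exact ⟨t, fun _ => ⟨ht, htv⟩⟩
    choose p hp using hpre
    refine ⟨fun v => if v ∈ Y then Sum.inl v else Sum.inr (p v), ?_, ?_, ?_⟩
    · rintro _ (⟨x, hx, rfl⟩ | ⟨v, rfl⟩) _ (⟨x', hx', rfl⟩ | ⟨v', rfl⟩) h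
      · simp only [io, mf_inl, Sum.inr.injEq] at h
        rw [h]
      · simp only [io, mf_inl, mf_inr] at h
        split_ifs at h with h1
        have h2 : x = p v' := by simpa using h
        rw [h2] at hx
        exact absurd hx (hp v' h1).1
      · simp only [io, mf_inl, mf_inr] at h
        split_ifs at h with h1
        have h2 : p v = x' := by simpa using h
        rw [← h2] at hx'
        exact absurd hx' (hp v h1).1
      · simp only [mf_inr] at h
        split_ifs at h with h1 h2 h2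
        · have : v = v' := by simpa using h
          rw [this]
        · have h3 : p v = p v' := by simpa using h
          have h4 := (hp v h1).2
          have h5 := (hp v' h2).2
          rw [h3, h5] at h4
          rw [h4]
    · intro v _
      show (if v ∈ Y then Sum.inl v else Sum.inr (p v)) ∈ nb G v
      split_ifs with h1
      · exact Or.inl rfl
      · obtain ⟨h2, h3⟩ := hp v h1
        rcases hm2 _ h2 with h4 | h4
        · right; left
          rw [h3] at h4
          rw [← h4]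
        · right; right
          rw [h3] at h4
          exact ⟨_, rfl, h4⟩
    · rw [Matroid.sum_indep_iff]
      refine ⟨hY.subset ?_, by simp⟩
      rintro y ⟨_, ⟨x, hx, rfl⟩ | ⟨v, rfl⟩, h⟩
      · simp [io] at h
      · simp only [mf_inr] at h
        split_ifs at h with h1
        have : v = y := by simpa using h
        rwa [← this]
  · rintro ⟨f, hinj, hΓ, hI⟩
    rw [Matroid.sum_indep_iff] at hI
    have hfinj : Function.Injective f := by
      intro v v' h
      have := hinj (Or.inr ⟨v, rfl⟩) (Or.inr ⟨v', rfl⟩) (by simpa using h)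
      simpa using this
    have hf : ∀ v, f v ∈ nb G v := fun v => hΓ v (Or.inr ⟨v, rfl⟩)
    set U : Set τ := {t | ∃ v, f v = Sum.inr t} with hU
    have hXU : X ⊆ Uᶜ := by
      rintro x hx ⟨v, hv⟩
      have := hinj (Or.inl ⟨x, hx, rfl⟩) (Or.inr ⟨v, rfl⟩) (by simp [io, hv])
      simp [io] at this
    have hm : ∀ t, ∃ v, t ∈ U → f v = Sum.inr t := by
      intro t
      by_cases ht : t ∈ U
      · obtain ⟨v, hv⟩ := ht
        exact ⟨v, fun _ => hv⟩
      · exact ⟨t, fun h => absurd h ht⟩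
    choose m hm using hm
    have hm1 : InjOn m (Uᶜ)ᶜ := by
      rw [compl_compl]
      intro t ht t' ht' h
      have h1 := hm t ht
      rw [h, hm t' ht'] at h1
      simpa using h1.symm
    have hm2 : ∀ t ∉ Uᶜ, m t = t ∨ G (m t) t := by
      intro t ht
      rw [notMem_compl_iff] at ht
      have h1 := hf (m t)
      rw [hm t ht] at h1
      rcases h1 with h1 | h1 | ⟨w, h1, h2⟩
      · cases h1
      · left
        simpa using h1.symm
      · right
        have : t = w := by simpa using h1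
        rwa [this] at h2 ⊢
    obtain ⟨P, p1, p2, p3, p4, -⟩ := linked_of_map (G := G) _ m Uᶜ rfl hm1 hm2
    have hL : Linked G Uᶜ (m '' (Uᶜ)ᶜ)ᶜ := ⟨P, p1, p2, p3, p4⟩
    refine Lk.subset (X := Uᶜ) ⟨_, ?_, hL⟩ hXU
    refine hI.1.subset ?_
    intro v hv
    rw [compl_compl] at hv
    refine ⟨Sum.inr v, Or.inr ⟨v, rfl⟩, ?_⟩
    simp only [mf_inr]
    rcases hf v with h1 | h1 | ⟨w, h1, -⟩
    · exact h1
    · exfalso
      apply hv
      have : v ∈ U := ⟨v, h1⟩
      refine ⟨v, this, ?_⟩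
      apply hfinj
      rw [hm v this, h1]
    · exfalso
      apply hv
      have : w ∈ U := ⟨v, h1⟩
      refine ⟨w, this, ?_⟩
      apply hfinj
      rw [hm w this, h1]

theorem noMK4_free (α : Type) (E : Set α) (hE : E.Finite) : NoMK4 α (Matroid.freeOn E) := by
  rw [noMK4_iff]
  refine ⟨hE, ?_⟩
  rintro ⟨C, hC, a, ha, b, hb, c, hc, d, hd, s, hs, t, ht, h⟩
  have hM : (Matroid.freeOn E).E.Finite := hE
  have hf := rf_rk hM
  have hq := hf.con C
  have n1 := ne_of_pair hq (hq.pair_of_triple h.abc).1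
  have n2 := ne_of_pair hq (h.as hq)
  have n3 := ne_of_pair hq (h.bs hq)
  have key : ∀ X ⊆ E, rk (Matroid.freeOn E) X = X.ncard := by
    intro X hX
    exact rk_indep hM (Matroid.freeOn_indep hX)
  obtain ⟨m1, m2, m3, m4, m5, m6⟩ := h.nonloops hq
  have out : ∀ x, 1 ≤ con (rk (Matroid.freeOn E)) C {x} → x ∉ C := by
    intro x h1 hxC
    have : C ∪ {x} = C := by
      apply union_eq_self_of_subset_right
      intro y hy
      rw [mem_singleton_iff.1 hy]
      exact hxC
    simp only [con, this] at h1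
    omega
  have hCf : C.Finite := hE.subset hC
  have h1 := h.sab
  simp only [con] at h1
  have hsub : ({s, a, b} : Set α) ⊆ E := by
    intro w hw
    simp only [mem_insert_iff, mem_singleton_iff] at hw
    rcases hw with rfl | rfl | rfl <;> assumption
  rw [key _ (union_subset hC hsub), key _ hC, ncard_union_eq _ hCf (Set.toFinite _)] at h1
  · have h2 : ({s, a, b} : Set α).ncard = 3 := Set.ncard_eq_three.2
      ⟨s, a, b, n2.symm, n3.symm, n1, rfl⟩
    rw [h2] at h1
    push_cast at h1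
    omega
  · rw [Set.disjoint_right]
    intro w hw
    simp only [mem_insert_iff, mem_singleton_iff] at hw
    rcases hw with rfl | rfl | rfl
    · exact out _ m5
    · exact out _ m1
    · exact out _ m2

/-- Induction by a directed graph. -/
theorem noMK4_induce {G : τ → τ → Prop} {M₀ N : Matroid τ} {A : Set τ} (hM : NoMK4 τ M₀)
    (hN : IsInduced G M₀ A N) : NoMK4 τ N := by
  classical
  rcases isEmpty_or_nonempty τ with hτ | hτ
  · rw [noMK4_iff]
    refine ⟨Set.toFinite _, ?_⟩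
    rintro ⟨C, hC, a, -⟩
    exact hτ.elim a
  have h1 : NoMK4 (τ ⊕ τ) (M₀.sum (Matroid.freeOn univ)) :=
    noMK4_sum hM (noMK4_free τ univ (Set.toFinite _))
  obtain ⟨Mp, hE, hMp⟩ := exists_bip (M₀.sum (Matroid.freeOn univ)) (nb G)
  have h2 : NoMK4 ((τ ⊕ τ) ⊕ τ) Mp := by
    rw [noMK4_iff] at h1 ⊢
    exact ⟨Set.toFinite _, fun h => h1.2 (bip_hk hE hMp h)⟩
  have hC : Mp.Indep (range Sum.inr) := by
    have h3 : Lk G M₀ ∅ := ((hN.2 ∅).1 N.empty_indep).2
    rw [lk_iff_match, ← hMp, image_empty, empty_union] at h3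
    exact h3
  have h3 := noMK4_contract h2 (range Sum.inr)
  have hA : io '' A ⊆ (Mp ／ (range Sum.inr : Set ((τ ⊕ τ) ⊕ τ))).E := by
    rintro _ ⟨v, -, rfl⟩
    rw [Matroid.contract_ground, hE]
    refine ⟨Or.inl ⟨Sum.inr v, ?_, rfl⟩, ?_⟩
    · rw [Matroid.sum_ground]
      exact Or.inr ⟨v, mem_univ _, rfl⟩
    · rintro ⟨w, hw⟩
      cases hw
  have h4 := noMK4_restrict h3 hA
  refine noMK4_iso (iso_symm ?_) h4
  have hNE : N.E = A := hN.1
  let e1 : N.E ≃ A := Equiv.setCongr hNE
  let e2 : A ≃ ((Mp ／ (range Sum.inr : Set ((τ ⊕ τ) ⊕ τ))) ↾ (io '' A)).E :=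
    Equiv.Set.image io A io_inj
  refine ⟨e1.trans e2, fun I => ?_⟩
  have himg : Subtype.val '' ((e1.trans e2) '' I) = io '' (Subtype.val '' I) := by
    ext x
    constructor
    · rintro ⟨_, ⟨y, hy, rfl⟩, rfl⟩
      exact ⟨y.1, ⟨y, hy, rfl⟩, rfl⟩
    · rintro ⟨_, ⟨y, hy, rfl⟩, rfl⟩
      exact ⟨_, ⟨y, hy, rfl⟩, rfl⟩
  have hsub : Subtype.val '' I ⊆ A := by
    rintro _ ⟨y, -, rfl⟩
    exact hNE ▸ y.2
  have himg' : (Subtype.val '' ((e1.trans e2) '' I) : Set ((τ ⊕ τ) ⊕ τ)) ⊆ io '' A := by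
    rw [himg]
    exact image_mono hsub
  rw [hN.2, Matroid.restrict_indep_iff, hC.contract_indep_iff, himg, hMp, ← lk_iff_match]
  have hdisj : Disjoint (io '' (Subtype.val '' I)) (range Sum.inr : Set ((τ ⊕ τ) ⊕ τ)) := by
    rw [Set.disjoint_left]
    rintro _ ⟨x, -, rfl⟩ ⟨y, hy⟩
    cases hy
  constructor
  · rintro ⟨-, h⟩
    exact ⟨⟨hdisj, h⟩, image_mono hsub⟩
  · rintro ⟨⟨-, h⟩, -⟩
    exact ⟨hsub, h⟩

end Pool.Agent.K9h62.CC
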